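import Mathlib

set_option autoImplicit false

/-!
# A normal form for words in two generators with the braid relation `X Y X = Y X Y`

Every word in `X`, `Y` and their inverses is equal to `X ^ i * p * X ^ j * Δ ^ (2 k)`, where
`Δ = X Y X` and `p` is a product of factors `X⁻¹` and `Y`.
-/

namespace Pool.Agent.K7.H38.KN

section

variable {Q : Type} [Group Q]

/-- the braid relation -/
def Br (X Y : Q) : Prop := X * Y * X = Y * X * Y

/-- the central element -/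
def dd (X Y : Q) : Q := X * Y * X * (X * Y * X)

/-- products of `X⁻¹` (letter `true`) and `Y` (letter `false`); the first letter is on the right -/
def pw (X Y : Q) : List Bool → Q
  | [] => 1
  | true :: l => pw X Y l * X⁻¹
  | false :: l => pw X Y l * Y

/-- products of powers of `X` (letter `true`) and `Y` (letter `false`); the first letter is on the
right -/
def val (X Y : Q) : List (Bool × ℤ) → Q
  | [] => 1
  | (true, n) :: l => val X Y l * X ^ n
  | (false, n) :: l => val X Y l * Y ^ n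

variable {X Y : Q}

theorem br_x (h : Br X Y) : SemiconjBy (X * Y * X) X Y := by
  unfold SemiconjBy
  have h1 : X * Y * X = Y * X * Y := h
  nth_rewrite 1 [h1]
  simp only [mul_assoc]

theorem br_y (h : Br X Y) : SemiconjBy (X * Y * X) Y X := by
  unfold SemiconjBy
  have h1 : X * Y * X = Y * X * Y := h
  nth_rewrite 2 [h1]
  simp only [mul_assoc]

theorem dd_x (h : Br X Y) : Commute (dd X Y) X := (br_y h).mul_left (br_x h)
theorem dd_y (h : Br X Y) : Commute (dd X Y) Y := (br_x h).mul_left (br_y h)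

theorem yxy (h : Br X Y) (j : ℤ) : Y * X ^ j * Y = X⁻¹ * Y ^ (j - 2) * X⁻¹ * dd X Y := by
  have e1 : (X * Y * X) * X ^ (j - 1) = Y ^ (j - 1) * (X * Y * X) := (br_x h).zpow_right (j - 1)
  have e2 : (X * Y * X) * Y = X * (X * Y * X) := br_y h
  have e3 : X ^ j = X * X ^ (j - 1) := by
    rw [← zpow_one_add]; congr 1; ring
  have e4 : Y ^ (j - 1) = Y ^ (j - 2) * Y := by
    rw [← zpow_add_one]; congr 1; ring
  calc Y * X ^ j * Y = X⁻¹ * ((X * Y * X) * X ^ (j - 1)) * Y := by rw [e3]; group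
    _ = X⁻¹ * Y ^ (j - 1) * ((X * Y * X) * Y) := by rw [e1]; simp only [mul_assoc]
    _ = X⁻¹ * Y ^ (j - 2) * (Y * (X * (X * Y * X))) := by rw [e2, e4]; simp only [mul_assoc]
    _ = X⁻¹ * Y ^ (j - 2) * X⁻¹ * dd X Y := by unfold dd; group

theorem y_inv (h : Br X Y) : Y⁻¹ = X ^ (2 : ℤ) * Y * X ^ (2 : ℤ) * (dd X Y)⁻¹ := by
  rw [eq_mul_inv_iff_mul_eq, inv_mul_eq_iff_eq_mul]
  have h1 := yxy h 2
  have e0 : (2 : ℤ) - 2 = 0 := by norm_num
  rw [e0, zpow_zero, mul_one] at h1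
  have h2 : dd X Y = X * X * (Y * X ^ (2 : ℤ) * Y) := by rw [h1]; group
  have h3 : X ^ (2 : ℤ) = X * X := by rw [zpow_two]
  have h4 : Commute (dd X Y) Y := dd_y h
  calc dd X Y = Y * dd X Y * Y⁻¹ := by rw [← h4.eq]; group
    _ = Y * (X ^ (2 : ℤ) * Y * X ^ (2 : ℤ)) := by rw [h2, h3]; group

theorem pw_true (X Y : Q) (n : ℕ) (l : List Bool) :
    pw X Y (List.replicate n true ++ l) = pw X Y l * X ^ (-(n : ℤ)) := by
  induction n with
  | zero => simp
  | succ n ih =>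
    rw [List.replicate_succ, List.cons_append]
    change pw X Y (List.replicate n true ++ l) * X⁻¹ = _
    rw [ih, mul_assoc, ← zpow_neg_one, ← zpow_add]
    congr 2
    push_cast
    ring

theorem pw_false (X Y : Q) (n : ℕ) (l : List Bool) :
    pw X Y (List.replicate n false ++ l) = pw X Y l * Y ^ (n : ℤ) := by
  induction n with
  | zero => simp
  | succ n ih =>
    rw [List.replicate_succ, List.cons_append]
    change pw X Y (List.replicate n false ++ l) * Y = _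
    rw [ih, mul_assoc, ← zpow_add_one]
    congr 2

end

/-- The data of a normal form. -/
structure Code where
  i : ℤ
  l : List Bool
  j : ℤ
  k : ℤ

def Code.ev (c : Code) {Q : Type} [Group Q] (X Y : Q) : Q :=
  X ^ c.i * pw X Y c.l * X ^ c.j * dd X Y ^ c.k

/-- Equality in all groups with the braid relation. -/
def Eqv (e : ∀ (Q : Type) [Group Q], Q → Q → Q) : Prop :=
  ∃ c : Code, ∀ (Q : Type) [Group Q] (X Y : Q), Br X Y → e Q X Y = c.ev X Y

theorem Eqv.mulX {e : ∀ (Q : Type) [Group Q], Q → Q → Q} (h : Eqv e) (n : ℤ) :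
    Eqv fun Q _ X Y => e Q X Y * X ^ n := by
  obtain ⟨c, hc⟩ := h
  refine ⟨⟨c.i, c.l, c.j + n, c.k⟩, fun Q _ X Y hb => ?_⟩
  have h1 : Commute (dd X Y ^ c.k) (X ^ n) := ((dd_x hb).zpow_left _).zpow_right _
  change e Q X Y * X ^ n = X ^ c.i * pw X Y c.l * X ^ (c.j + n) * dd X Y ^ c.k
  rw [hc Q X Y hb, Code.ev, mul_assoc, h1.eq, zpow_add]
  simp only [mul_assoc]

theorem Eqv.mulD {e : ∀ (Q : Type) [Group Q], Q → Q → Q} (h : Eqv e) (n : ℤ) :
    Eqv fun Q _ X Y => e Q X Y * dd X Y ^ n := by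
  obtain ⟨c, hc⟩ := h
  refine ⟨⟨c.i, c.l, c.j, c.k + n⟩, fun Q _ X Y hb => ?_⟩
  change e Q X Y * dd X Y ^ n = X ^ c.i * pw X Y c.l * X ^ c.j * dd X Y ^ (c.k + n)
  rw [hc Q X Y hb, Code.ev, mul_assoc, zpow_add]

theorem pwY_neg (l : List Bool) (j : ℤ) (hj : j ≤ 0) : Eqv fun _ _ X Y => pw X Y l * X ^ j * Y := by
  obtain ⟨n, hn⟩ := Int.eq_ofNat_of_zero_le (neg_nonneg.mpr hj)
  refine ⟨⟨0, false :: (List.replicate n true ++ l), 0, 0⟩, fun Q _ X Y _ => ?_⟩
  change _ = X ^ (0 : ℤ) * (pw X Y (List.replicate n true ++ l) * Y) * X ^ (0 : ℤ) *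
    dd X Y ^ (0 : ℤ)
  rw [pw_true, ← hn, neg_neg]
  simp only [zpow_zero, one_mul, mul_one]

theorem pwY : ∀ (l : List Bool) (j : ℤ), Eqv fun _ _ X Y => pw X Y l * X ^ j * Y := by
  intro l
  induction l with
  | nil =>
    intro j
    refine ⟨⟨j, [false], 0, 0⟩, fun Q _ X Y _ => ?_⟩
    change 1 * X ^ j * Y = X ^ j * (1 * Y) * X ^ (0 : ℤ) * dd X Y ^ (0 : ℤ)
    simp only [zpow_zero, one_mul, mul_one]
  | cons b l ih =>
    intro j
    rcases le_or_gt j 0 with hj | hj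
    · exact pwY_neg _ j hj
    · cases b
      · rcases eq_or_lt_of_le (show (1 : ℤ) ≤ j from hj) with h1 | h1
        · -- `Y X Y = X Y X`
          obtain ⟨c, hc⟩ := (ih 1).mulX 1
          refine ⟨c, fun Q _ X Y hb => ?_⟩
          rw [← hc Q X Y hb, ← h1]
          change pw X Y l * Y * X ^ (1 : ℤ) * Y = pw X Y l * X ^ (1 : ℤ) * Y * X ^ (1 : ℤ)
          have h2 : X * Y * X = Y * X * Y := hb
          simp only [zpow_one, mul_assoc] at h2 ⊢
          rw [h2]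
        · obtain ⟨n, hn⟩ := Int.eq_ofNat_of_zero_le (show (0 : ℤ) ≤ j - 2 by omega)
          refine ⟨⟨0, true :: (List.replicate n false ++ (true :: l)), 0, 1⟩,
            fun Q _ X Y hb => ?_⟩
          change pw X Y l * Y * X ^ j * Y = X ^ (0 : ℤ) *
            (pw X Y (List.replicate n false ++ (true :: l)) * X⁻¹) * X ^ (0 : ℤ) *
              dd X Y ^ (1 : ℤ)
          rw [pw_false, ← hn]
          change _ = X ^ (0 : ℤ) * (pw X Y l * X⁻¹ * Y ^ (j - 2) * X⁻¹) * X ^ (0 : ℤ) *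
              dd X Y ^ (1 : ℤ)
          have h2 := yxy hb j
          simp only [mul_assoc] at h2
          simp only [zpow_zero, one_mul, mul_one, zpow_one, mul_assoc]
          rw [h2]
      · obtain ⟨c, hc⟩ := ih (j - 1)
        refine ⟨c, fun Q _ X Y hb => ?_⟩
        rw [← hc Q X Y hb]
        change pw X Y l * X⁻¹ * X ^ j * Y = pw X Y l * X ^ (j - 1) * Y
        rw [mul_assoc (pw X Y l), ← zpow_neg_one, ← zpow_add]
        congr 3
        ring

theorem Eqv.mulY {e : ∀ (Q : Type) [Group Q], Q → Q → Q} (h : Eqv e) :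
    Eqv fun Q _ X Y => e Q X Y * Y := by
  obtain ⟨c, hc⟩ := h
  obtain ⟨c', hc'⟩ := pwY c.l c.j
  refine ⟨⟨c.i + c'.i, c'.l, c'.j, c'.k + c.k⟩, fun Q _ X Y hb => ?_⟩
  have h1 : dd X Y ^ c.k * Y = Y * dd X Y ^ c.k := (dd_y hb).zpow_left _
  have h2 : pw X Y c.l * X ^ c.j * Y = X ^ c'.i * pw X Y c'.l * X ^ c'.j * dd X Y ^ c'.k :=
    hc' Q X Y hb
  calc e Q X Y * Y = X ^ c.i * pw X Y c.l * X ^ c.j * (dd X Y ^ c.k * Y) := by
        rw [hc Q X Y hb, Code.ev, mul_assoc]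
    _ = X ^ c.i * (pw X Y c.l * X ^ c.j * Y) * dd X Y ^ c.k := by
        rw [h1]; simp only [mul_assoc]
    _ = X ^ (c.i + c'.i) * pw X Y c'.l * X ^ c'.j * dd X Y ^ (c'.k + c.k) := by
        rw [h2, zpow_add, zpow_add]; simp only [mul_assoc]

theorem Eqv.mulYinv {e : ∀ (Q : Type) [Group Q], Q → Q → Q} (h : Eqv e) :
    Eqv fun Q _ X Y => e Q X Y * Y⁻¹ := by
  obtain ⟨c, hc⟩ := (((h.mulX 2).mulY).mulX 2).mulD (-1)
  refine ⟨c, fun Q _ X Y hb => ?_⟩
  have h1 := hc Q X Y hb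
  change e Q X Y * X ^ (2 : ℤ) * Y * X ^ (2 : ℤ) * dd X Y ^ (-1 : ℤ) = _ at h1
  change e Q X Y * Y⁻¹ = _
  rw [← h1, y_inv hb, zpow_neg_one]
  simp only [mul_assoc]

theorem Eqv.mulYz {e : ∀ (Q : Type) [Group Q], Q → Q → Q} (h : Eqv e) (n : ℤ) :
    Eqv fun Q _ X Y => e Q X Y * Y ^ n := by
  induction n with
  | zero =>
    obtain ⟨c, hc⟩ := h
    refine ⟨c, fun Q _ X Y hb => ?_⟩
    change e Q X Y * Y ^ (0 : ℤ) = _
    rw [zpow_zero, mul_one]; exact hc Q X Y hb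
  | succ n ih =>
    obtain ⟨c, hc⟩ := ih.mulY
    refine ⟨c, fun Q _ X Y hb => ?_⟩
    change e Q X Y * Y ^ ((n : ℤ) + 1) = _
    rw [zpow_add_one, ← mul_assoc]; exact hc Q X Y hb
  | pred n ih =>
    obtain ⟨c, hc⟩ := ih.mulYinv
    refine ⟨c, fun Q _ X Y hb => ?_⟩
    change e Q X Y * Y ^ (-(n : ℤ) - 1) = _
    rw [zpow_sub_one, ← mul_assoc]; exact hc Q X Y hb

/-- The normal form. -/
theorem eqv_val : ∀ w : List (Bool × ℤ), Eqv fun _ _ X Y => val X Y w
  | [] => ⟨⟨0, [], 0, 0⟩, fun Q _ X Y _ => by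
      change (1 : Q) = X ^ (0 : ℤ) * 1 * X ^ (0 : ℤ) * dd X Y ^ (0 : ℤ)
      simp only [zpow_zero, mul_one]⟩
  | (true, n) :: w => (eqv_val w).mulX n
  | (false, n) :: w => (eqv_val w).mulYz n

end Pool.Agent.K7.H38.KN
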