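import Pool.Agent.K7.H39.TB.Pub

set_option autoImplicit false

/-!
# Closed chains of tangles of both signs on three strands: the definitions used in the statement
-/

namespace Pool.Agent.K7.H38.KN

open Pool.Agent.Y479.LS Pool.Agent.K7.H39.TB

/-- A tangle between two neighbouring strands: the rational tangle `p / q`; an alternating tangle
diagram `T` of positive sign; or the reflection of such a diagram `T` in the line through `west` and
`east`, which is an alternating diagram of negative sign. (The boundary elements `south` and `east`
commute for all diagrams in the plane, as they lie in the fundamental group of a boundary torus.) -/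
inductive STang : Type 1
  | rat (p q : ℤ)
  | pos (T : Tangle) (h : Tan.B (T := T) T.south * Tan.W T.east = Tan.W T.east * Tan.B T.south)
  | neg (T : Tangle) (h : Tan.B (T := T) T.south * Tan.W T.east = Tan.W T.east * Tan.B T.south)

namespace STang

/-- The double branched cover of a ball along the tangle, with the elements `A = west⁻¹ east` and
`a = north⁻¹ south` of the boundary torus: a solid torus with `A = t ^ q`, `a = t ^ p` for the
rational tangle `p / q`. -/
def piece : STang → Piece
  | rat p q =>
    { P := Multiplicative ℤ
      grp := inferInstance
      A := Multiplicative.ofAdd q
      a := Multiplicative.ofAdd p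
      comm := mul_comm _ _ }
  | pos T h =>
    { P := Tan.Grp T
      grp := inferInstance
      A := Tan.W T.east
      a := Tan.B T.south
      comm := h }
  | neg T h =>
    { P := Tan.Grp T
      grp := inferInstance
      A := Tan.W T.east
      a := (Tan.B T.south)⁻¹
      comm := (show Commute (Tan.B (T := T) T.south) (Tan.W T.east) from h).inv_left }

/-- All tangles except the rational tangles `0 / q`. -/
def Proper : STang → Prop
  | rat p _ => p ≠ 0
  | pos _ _ => True
  | neg _ _ => True

end STang

/-- The fundamental group of the double branched cover of the closed chain with the letters `l`: a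
letter `(true, T)` stands for the tangle `T` between the strands 1 and 2, a letter `(false, T)` for
the tangle `T` between the strands 2 and 3. -/
abbrev ChainGrp (l : List (Bool × STang)) : Type :=
  Glued.Grp (fun i : Fin l.length => (l.get i).2.piece) (fun i => (l.get i).1)

/-- The letter of a power `σ₁ ^ n` (`(true, n)`) or `σ₂ ^ n` (`(false, n)`). -/
def pow (x : Bool × ℤ) : Bool × STang := (x.1, .rat x.2 1)

/-- The inverse of a braid word. -/
def inv (w : List (Bool × ℤ)) : List (Bool × ℤ) := w.reverse.map fun x => (x.1, -x.2)

/-- The closed chain `T₁ w T₂ w⁻¹`, where `T₁`, `T₂` are tangles between the strands 1 and 2 and `w` is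
a braid on three strands, a product of powers of `σ₁` and `σ₂`. -/
def doubled (T₁ : STang) (w : List (Bool × ℤ)) (T₂ : STang) : List (Bool × STang) :=
  (true, T₁) :: (w.map pow ++ (true, T₂) :: (inv w).map pow)

/-- The action of braid words on pairs of integers. -/
def shift : List (Bool × ℤ) → ℤ × ℤ → ℤ × ℤ
  | [], s => s
  | (true, n) :: w, s => shift w (s.1, s.2 - n * s.1)
  | (false, n) :: w, s => shift w (s.1 + n * s.2, s.2)

/-- The first component of the image of `(0, 1)`, an off-diagonal entry of the matrix of the braid
`w`; up to sign, the double branched cover of the 2-bridge link obtained by closing `w` with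
`∞`-tangles has homology of this order. -/
def cross (w : List (Bool × ℤ)) : ℤ := (shift w (0, 1)).1

end Pool.Agent.K7.H38.KN
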