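import Pool.Agent.K7.H38.KN.Sign
import Pool.Agent.K7.H38.KN.Braid
import Pool.Agent.K7.H38.KN.Pub

set_option autoImplicit false

/-!
# The action of three-strand braid words on pairs of group elements
-/

namespace Pool.Agent.K7.H38.KN

open Pool.Agent.Y479.LS Aut

section moves

variable {G : Type} [Group G]

/-- `σ₁` -/
def mX : Equiv.Perm (G × G) where
  toFun s := (s.1, s.2 * s.1⁻¹)
  invFun s := (s.1, s.2 * s.1)
  left_inv s := by simp
  right_inv s := by simp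

/-- `σ₂` -/
def mY : Equiv.Perm (G × G) where
  toFun s := (s.1 * s.2, s.2)
  invFun s := (s.1 * s.2⁻¹, s.2)
  left_inv s := by simp
  right_inv s := by simp

theorem mX_apply (s : G × G) : mX s = (s.1, s.2 * s.1⁻¹) := rfl
theorem mY_apply (s : G × G) : mY s = (s.1 * s.2, s.2) := rfl
theorem mX_inv_apply (s : G × G) : mX⁻¹ s = (s.1, s.2 * s.1) := rfl
theorem mY_inv_apply (s : G × G) : mY⁻¹ s = (s.1 * s.2⁻¹, s.2) := rfl

theorem mX_zpow (n : ℤ) (s : G × G) : (mX ^ n) s = (s.1, s.2 * (s.1 ^ n)⁻¹) := by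
  induction n generalizing s with
  | zero => simp
  | succ n ih =>
    rw [zpow_add_one, Equiv.Perm.mul_apply, ih, mX_apply]
    simp only [Prod.mk.injEq, true_and]
    rw [zpow_add_one]; group
  | pred n ih =>
    rw [zpow_sub_one, Equiv.Perm.mul_apply, ih, mX_inv_apply]
    simp only [Prod.mk.injEq, true_and]
    rw [zpow_sub_one]; group

theorem mY_zpow (n : ℤ) (s : G × G) : (mY ^ n) s = (s.1 * s.2 ^ n, s.2) := by
  induction n generalizing s with
  | zero => simp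
  | succ n ih =>
    rw [zpow_add_one, Equiv.Perm.mul_apply, ih, mY_apply]
    simp only [Prod.mk.injEq, and_true]
    rw [mul_assoc, ← zpow_one_add, add_comm]
  | pred n ih =>
    rw [zpow_sub_one, Equiv.Perm.mul_apply, ih, mY_inv_apply]
    simp only [Prod.mk.injEq, and_true]
    rw [mul_assoc, ← zpow_neg_one, ← zpow_add]; congr 2; ring

theorem br_m : Br (mX (G := G)) mY := by
  unfold Br
  ext s : 1
  simp only [Equiv.Perm.mul_apply, mX_apply, mY_apply, Prod.mk.injEq]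
  constructor <;> group

theorem dd_m (A B : G) : dd (mX (G := G)) mY (A, B) = (A * B * A⁻¹ * (A * B)⁻¹,
    A * B * B⁻¹ * (A * B)⁻¹) := by
  simp only [dd, Equiv.Perm.mul_apply, mX_apply, mY_apply, Prod.mk.injEq]
  constructor <;> group

theorem dd_m_inv (A B : G) : (dd (mX (G := G)) mY)⁻¹ (A, B) = (B * A⁻¹ * B⁻¹,
    B * A * B⁻¹ * A⁻¹ * B⁻¹) := by
  rw [Equiv.Perm.inv_eq_iff_eq, dd_m, Prod.mk.injEq]
  constructor <;> group

theorem pw_m (l : List Bool) (s : G × G) : pw mX mY l s = run l s := by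
  induction l generalizing s with
  | nil => rfl
  | cons b l ih =>
    cases b
    · change pw mX mY l (mY s) = run l (stp false s)
      rw [ih]; rfl
    · change pw mX mY l (mX⁻¹ s) = run l (stp true s)
      rw [ih]; rfl

/-- The action of a braid word on a pair of group elements; the first letter acts first. -/
def runw : List (Bool × ℤ) → G × G → G × G
  | [], s => s
  | (true, n) :: w, s => runw w (s.1, s.2 * (s.1 ^ n)⁻¹)
  | (false, n) :: w, s => runw w (s.1 * s.2 ^ n, s.2)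

theorem runw_eq : ∀ (w : List (Bool × ℤ)) (s : G × G), runw w s = val mX mY w s
  | [], _ => rfl
  | (true, n) :: w, s => by
    change runw w _ = val mX mY w ((mX ^ n) s)
    rw [mX_zpow, ← runw_eq w]
  | (false, n) :: w, s => by
    change runw w _ = val mX mY w ((mY ^ n) s)
    rw [mY_zpow, ← runw_eq w]

theorem runw_map {H : Type} [Group H] (φ : G →* H) : ∀ (w : List (Bool × ℤ)) (s : G × G),
    runw w (φ s.1, φ s.2) = (φ (runw w s).1, φ (runw w s).2)
  | [], _ => rfl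
  | (true, n) :: w, s => by
    have := runw_map φ w (s.1, s.2 * (s.1 ^ n)⁻¹)
    simp only [map_mul, map_inv, map_zpow] at this
    exact this
  | (false, n) :: w, s => by
    have := runw_map φ w (s.1 * s.2 ^ n, s.2)
    simp only [map_mul, map_zpow] at this
    exact this

/-- The pairs `s`, `s'` have the same first component `A`, and the second components differ by a
factor `a` that commutes with `A`. -/
def Ty (A a : G) (s s' : G × G) : Prop := ∃ B, s = (A, B) ∧ s' = (A, B * a) ∧ A * a = a * A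

theorem Ty.x {A a : G} {s s' : G × G} (h : Ty A a s s') (n : ℤ) :
    Ty A a ((mX ^ n) s) ((mX ^ n) s') := by
  obtain ⟨B, rfl, rfl, hc⟩ := h
  refine ⟨B * (A ^ n)⁻¹, by rw [mX_zpow], ?_, hc⟩
  rw [mX_zpow]
  simp only [Prod.mk.injEq, true_and]
  have h1 : Commute (A ^ n)⁻¹ a := ((show Commute A a from hc).zpow_left n).inv_left
  rw [mul_assoc, mul_assoc, h1.eq]

theorem Ty.d {A a : G} {s s' : G × G} (h : Ty A a s s') : ∃ k,
    Ty (k * A⁻¹ * k⁻¹) (k * a⁻¹ * k⁻¹) (dd mX mY s) (dd mX mY s') := by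
  obtain ⟨B, rfl, rfl, hc⟩ := h
  have h1 : Commute A a := hc
  have h2 : a * A⁻¹ * a⁻¹ = A⁻¹ := by rw [(h1.inv_left).symm.eq]; group
  refine ⟨A * B, _, dd_m A B, ?_, ?_⟩
  · rw [dd_m]
    simp only [Prod.mk.injEq]
    constructor
    · calc A * (B * a) * A⁻¹ * (A * (B * a))⁻¹ = A * B * (a * A⁻¹ * a⁻¹) * (A * B)⁻¹ := by group
        _ = A * B * A⁻¹ * (A * B)⁻¹ := by rw [h2]
    · group
  · have h3 : A⁻¹ * a⁻¹ = a⁻¹ * A⁻¹ := (h1.inv_left.inv_right).eq
    calc A * B * A⁻¹ * (A * B)⁻¹ * (A * B * a⁻¹ * (A * B)⁻¹) = A * B * (A⁻¹ * a⁻¹) * (A * B)⁻¹ := by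
          group
      _ = A * B * a⁻¹ * (A * B)⁻¹ * (A * B * A⁻¹ * (A * B)⁻¹) := by rw [h3]; group

theorem Ty.d' {A a : G} {s s' : G × G} (h : Ty A a s s') : ∃ k,
    Ty (k * A⁻¹ * k⁻¹) (k * a⁻¹ * k⁻¹) ((dd mX mY)⁻¹ s) ((dd mX mY)⁻¹ s') := by
  obtain ⟨B, rfl, rfl, hc⟩ := h
  have h1 : Commute A a := hc
  have h2 : a * A⁻¹ * a⁻¹ = A⁻¹ := by rw [(h1.inv_left).symm.eq]; group
  have h4 : a * A * a⁻¹ = A := by rw [← hc]; group
  have h3 : A⁻¹ * a⁻¹ = a⁻¹ * A⁻¹ := (h1.inv_left.inv_right).eq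
  refine ⟨B, _, dd_m_inv A B, ?_, ?_⟩
  · rw [dd_m_inv]
    simp only [Prod.mk.injEq]
    constructor
    · calc B * a * A⁻¹ * (B * a)⁻¹ = B * (a * A⁻¹ * a⁻¹) * B⁻¹ := by group
        _ = B * A⁻¹ * B⁻¹ := by rw [h2]
    · calc B * a * A * (B * a)⁻¹ * A⁻¹ * (B * a)⁻¹ = B * (a * A * a⁻¹) * B⁻¹ * (A⁻¹ * a⁻¹) * B⁻¹ := by
            group
        _ = B * A * B⁻¹ * (A⁻¹ * a⁻¹) * B⁻¹ := by rw [h4]
        _ = B * A * B⁻¹ * A⁻¹ * B⁻¹ * (B * a⁻¹ * B⁻¹) := by group
  · calc B * A⁻¹ * B⁻¹ * (B * a⁻¹ * B⁻¹) = B * (A⁻¹ * a⁻¹) * B⁻¹ := by group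
      _ = B * a⁻¹ * B⁻¹ * (B * A⁻¹ * B⁻¹) := by rw [h3]; group

end moves

section integers

def aX : Equiv.Perm (ℤ × ℤ) where
  toFun s := (s.1, s.2 - s.1)
  invFun s := (s.1, s.2 + s.1)
  left_inv s := by simp
  right_inv s := by simp

def aY : Equiv.Perm (ℤ × ℤ) where
  toFun s := (s.1 + s.2, s.2)
  invFun s := (s.1 - s.2, s.2)
  left_inv s := by simp
  right_inv s := by simp

theorem aX_apply (s : ℤ × ℤ) : aX s = (s.1, s.2 - s.1) := rfl
theorem aY_apply (s : ℤ × ℤ) : aY s = (s.1 + s.2, s.2) := rfl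
theorem aX_inv_apply (s : ℤ × ℤ) : aX⁻¹ s = (s.1, s.2 + s.1) := rfl
theorem aY_inv_apply (s : ℤ × ℤ) : aY⁻¹ s = (s.1 - s.2, s.2) := rfl

theorem aX_zpow (n : ℤ) (s : ℤ × ℤ) : (aX ^ n) s = (s.1, s.2 - n * s.1) := by
  induction n generalizing s with
  | zero => simp
  | succ n ih =>
    rw [zpow_add_one, Equiv.Perm.mul_apply, ih, aX_apply]
    simp only [Prod.mk.injEq, true_and]
    ring
  | pred n ih =>
    rw [zpow_sub_one, Equiv.Perm.mul_apply, ih, aX_inv_apply]
    simp only [Prod.mk.injEq, true_and]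
    ring

theorem aY_zpow (n : ℤ) (s : ℤ × ℤ) : (aY ^ n) s = (s.1 + n * s.2, s.2) := by
  induction n generalizing s with
  | zero => simp
  | succ n ih =>
    rw [zpow_add_one, Equiv.Perm.mul_apply, ih, aY_apply]
    simp only [Prod.mk.injEq, and_true]
    ring
  | pred n ih =>
    rw [zpow_sub_one, Equiv.Perm.mul_apply, ih, aY_inv_apply]
    simp only [Prod.mk.injEq, and_true]
    ring

theorem br_a : Br aX aY := by
  unfold Br
  ext s : 1
  simp only [Equiv.Perm.mul_apply, aX_apply, aY_apply, Prod.mk.injEq]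
  constructor <;> ring

theorem shift_eq : ∀ (w : List (Bool × ℤ)) (s : ℤ × ℤ), shift w s = val aX aY w s
  | [], _ => rfl
  | (true, n) :: w, s => by
    change shift w _ = val aX aY w ((aX ^ n) s)
    rw [aX_zpow, ← shift_eq w]
  | (false, n) :: w, s => by
    change shift w _ = val aX aY w ((aY ^ n) s)
    rw [aY_zpow, ← shift_eq w]

/-- the permutations that preserve the vanishing of the first component -/
def vanish : Subgroup (Equiv.Perm (ℤ × ℤ)) where
  carrier := {f | ∀ s, s.1 = 0 ↔ (f s).1 = 0}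
  one_mem' := fun _ => Iff.rfl
  mul_mem' := fun {_ g} h1 h2 s => (h2 s).trans (h1 (g s))
  inv_mem' := fun {f} h s => by
    have h1 := h (f⁻¹ s)
    have h2 : f (f⁻¹ s) = s := f.apply_symm_apply s
    rw [h2] at h1
    exact h1.symm

theorem aX_mem : aX ∈ vanish := fun _ => Iff.rfl

theorem dd_mem : dd aX aY ∈ vanish := by
  intro s
  simp only [dd, Equiv.Perm.mul_apply, aX_apply, aY_apply]
  constructor <;> intro h <;> linarith

theorem pw_mem : ∀ l : List Bool, false ∉ l → pw aX aY l ∈ vanish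
  | [], _ => vanish.one_mem
  | true :: _, h => vanish.mul_mem (pw_mem _ fun h1 => h (List.mem_cons_of_mem _ h1))
      (vanish.inv_mem aX_mem)
  | false :: _, h => absurd List.mem_cons_self h

theorem false_mem {w : List (Bool × ℤ)} (hN : cross w ≠ 0) {c : Code}
    (hc : ∀ (Q : Type) [Group Q] (X Y : Q), Br X Y → val X Y w = c.ev X Y) : false ∈ c.l := by
  by_contra hcon
  apply hN
  have h1 : val aX aY w ∈ vanish := by
    rw [hc _ aX aY br_a]
    exact vanish.mul_mem (vanish.mul_mem (vanish.mul_mem (vanish.zpow_mem aX_mem _)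
      (pw_mem _ hcon)) (vanish.zpow_mem aX_mem _)) (vanish.zpow_mem dd_mem _)
  unfold cross
  rw [shift_eq]
  exact (h1 (0, 1)).mp rfl

end integers

section core

variable {X : Type} [LinearOrder X]

/-- The two states differ by `a` in the second component, and `a` has the sign of the first component
`A`, or the opposite sign. -/
def QQ (s s' : Aut X × Aut X) : Prop := ∃ A a, Ty A a s s' ∧ SS A a

theorem QQ.x {s s' : Aut X × Aut X} (h : QQ s s') (n : ℤ) : QQ ((mX ^ n) s) ((mX ^ n) s') := by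
  obtain ⟨A, a, h1, h2⟩ := h
  exact ⟨A, a, h1.x n, h2⟩

theorem QQ.d {s s' : Aut X × Aut X} (h : QQ s s') : QQ (dd mX mY s) (dd mX mY s') := by
  obtain ⟨A, a, h1, h2⟩ := h
  obtain ⟨k, hk⟩ := h1.d
  exact ⟨_, _, hk, h2.inv.conj k⟩

theorem QQ.d' {s s' : Aut X × Aut X} (h : QQ s s') :
    QQ ((dd mX mY)⁻¹ s) ((dd mX mY)⁻¹ s') := by
  obtain ⟨A, a, h1, h2⟩ := h
  obtain ⟨k, hk⟩ := h1.d'
  exact ⟨_, _, hk, h2.inv.conj k⟩

theorem QQ.dz (n : ℤ) : ∀ {s s' : Aut X × Aut X}, QQ s s' →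
    QQ ((dd mX mY ^ n) s) ((dd mX mY ^ n) s') := by
  induction n with
  | zero => intro s s' h; exact h
  | succ n ih =>
    intro s s' h
    rw [zpow_add_one]
    exact ih h.d
  | pred n ih =>
    intro s s' h
    rw [zpow_sub_one]
    exact ih h.d'

/-- The main theorem for actions. -/
theorem core {w : List (Bool × ℤ)} (hN : cross w ≠ 0) {s s' : Aut X × Aut X} (hq : QQ s s')
    {A₂ B₂ u : Aut X} (h1 : runw w s = (A₂, B₂)) (h2 : runw w s' = (A₂, B₂ * u))
    (hu : A₂ * u = u * A₂) :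
    (∀ z, A₂ z = z → u z = z → B₂ z = z) ∧ (Nonempty X → ¬ ∀ z, z < u⁻¹ z) := by
  obtain ⟨c, hc⟩ := eqv_val w
  have hl : false ∈ c.l := false_mem hN hc
  have hv : val (mX (G := Aut X)) mY w = c.ev mX mY := hc (Equiv.Perm (Aut X × Aut X)) mX mY br_m
  have hq' : QQ ((mX ^ c.j) ((dd mX mY ^ c.k) s)) ((mX ^ c.j) ((dd mX mY ^ c.k) s')) :=
    (hq.dz c.k).x c.j
  obtain ⟨m, v, ⟨g, e1, e2, hcm⟩, hs⟩ := hq'
  have r1 : run c.l (m, g) = (A₂, B₂ * A₂ ^ c.i) := by
    have h3 : (mX ^ c.i) (run c.l (m, g)) = (A₂, B₂) := by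
      rw [← h1, runw_eq, hv, Code.ev, Equiv.Perm.mul_apply, Equiv.Perm.mul_apply,
        Equiv.Perm.mul_apply, e1, pw_m]
    rw [← Equiv.Perm.eq_inv_iff_eq, ← zpow_neg, mX_zpow] at h3
    rw [h3]
    simp only [zpow_neg, inv_inv]
  have r2 : run c.l (m, g * v) = (A₂, B₂ * A₂ ^ c.i * u) := by
    have h3 : (mX ^ c.i) (run c.l (m, g * v)) = (A₂, B₂ * u) := by
      rw [← h2, runw_eq, hv, Code.ev, Equiv.Perm.mul_apply, Equiv.Perm.mul_apply,
        Equiv.Perm.mul_apply, e2, pw_m]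
    rw [← Equiv.Perm.eq_inv_iff_eq, ← zpow_neg, mX_zpow] at h3
    rw [h3]
    simp only [zpow_neg, inv_inv, Prod.mk.injEq, true_and]
    have h4 : Commute (A₂ ^ c.i) u := (show Commute A₂ u from hu).zpow_left _
    rw [mul_assoc, mul_assoc, h4.eq]
  constructor
  · intro z hz1 hz2
    have h3 := posword (l := c.l) hl (m := m) (g := g) (v := v) (z₀ := z) hcm hs
      (by rw [r1]; exact hz1) (by rw [r2]; exact hz1) (by
        rw [r1, r2]
        change (B₂ * A₂ ^ c.i) z = (B₂ * A₂ ^ c.i * u) z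
        rw [mul_apply _ u, hz2])
    rw [r1] at h3
    change (B₂ * A₂ ^ c.i) z = z at h3
    have h4 : (A₂ ^ c.i) z = z := ((Aut.stab z z).zpow_mem (show A₂ ∈ Aut.stab z z from
      ⟨hz1, hz1⟩) c.i).1
    rwa [mul_apply, h4] at h3
  · intro _
    exact posword_not_up (l := c.l) hl (m := m) (g := g) (v := v) (u := u) (by rw [r1, r2])
      (by rw [r1, r2])

end core

end Pool.Agent.K7.H38.KN
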