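import Pool.Agent.K7.H39.TB.Glued
import Pool.Agent.K7.H38.KN.Moves

set_option autoImplicit false

/-!
# The closed chain `T₁ w T₂ w⁻¹`
-/

namespace Pool.Agent.K7.H38.KN

open Pool.Agent.Y479.LS Aut Pool.Agent.K7.H39.TB

/-! ### the pieces -/

section pieces

variable {X : Type} [LinearOrder X]

/-- In every action on a linear order `a` has the sign of `A`, or the opposite sign. -/
def Sg (M : Piece) : Prop := ∀ (X : Type) [LinearOrder X] (φ : M.P →* Aut X), SS (φ M.A) (φ M.a)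

/-- The fixed points of `a` are global fixed points. -/
def Fa (M : Piece) : Prop :=
  ∀ (X : Type) [LinearOrder X] (φ : M.P →* Aut X) (x : X), φ M.a x = x → ∀ g, φ g x = x

/-- The common fixed points of `A` and `a` are global fixed points. -/
def Fb (M : Piece) : Prop :=
  ∀ (X : Type) [LinearOrder X] (φ : M.P →* Aut X) (x : X), φ M.A x = x → φ M.a x = x →
    ∀ g, φ g x = x

theorem zpow_fix (g : Aut X) {x : X} (h : g x = x) (n : ℤ) : (g ^ n) x = x :=
  ((Aut.stab x x).zpow_mem (show g ∈ Aut.stab x x from ⟨h, h⟩) n).1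

theorem fix_of_zpow (g : Aut X) {x : X} {n : ℤ} (hn : n ≠ 0) (h : (g ^ n) x = x) : g x = x := by
  rcases Int.eq_nat_or_neg n with ⟨m, rfl | rfl⟩
  · rw [zpow_natCast] at h
    exact fix_of_pow (Nat.pos_of_ne_zero fun h0 => hn (by rw [h0]; rfl)) h
  · rw [zpow_neg, zpow_natCast] at h
    have h1 : (g ^ m) x = x := by
      rw [← (g ^ m)⁻¹.inj, inv_self, h]
    exact fix_of_pow (Nat.pos_of_ne_zero fun h0 => hn (by rw [h0]; rfl)) h1

theorem mz (φ : Multiplicative ℤ →* Aut X) (n : ℤ) :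
    φ (Multiplicative.ofAdd n) = φ (Multiplicative.ofAdd 1) ^ n := by
  rw [← map_zpow, ← ofAdd_zsmul]; simp

theorem gen_fix (φ : Multiplicative ℤ →* Aut X) {x : X} (h : φ (Multiplicative.ofAdd 1) x = x)
    (g : Multiplicative ℤ) : φ g x = x := by
  have h3 : g = Multiplicative.ofAdd (Multiplicative.toAdd g) := rfl
  rw [h3, mz]
  exact zpow_fix _ h _

/-- signs of the powers of an automorphism -/
theorem zpow_sign (t : Aut X) (z : X) {n : ℤ} (hn : 0 < n) :
    (z < (t ^ n) z ↔ z < t z) ∧ ((t ^ n) z < z ↔ t z < z) := by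
  obtain ⟨m, rfl⟩ := Int.eq_ofNat_of_zero_le hn.le
  have hm : 0 < m := by exact_mod_cast hn
  rw [zpow_natCast]
  exact ⟨⟨pos_of_pow, fun h => pow_up_lt t z h hm⟩, ⟨neg_of_pow, fun h => pow_down_lt t z h hm⟩⟩

theorem zpow_sign_neg (t : Aut X) (z : X) {n : ℤ} (hn : n < 0) :
    (z < (t ^ n) z ↔ t z < z) ∧ ((t ^ n) z < z ↔ z < t z) := by
  have h1 := zpow_sign t⁻¹ z (n := -n) (by omega)
  rw [zpow_neg, inv_zpow, inv_inv, lt_inv_iff, inv_lt_iff] at h1
  exact h1

theorem SS.zpow (t : Aut X) {p : ℤ} (hp : p ≠ 0) (q : ℤ) : SS (t ^ q) (t ^ p) := by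
  rcases lt_trichotomy q 0 with hq | rfl | hq
  · rcases lt_or_gt_of_ne hp with hp | hp
    · refine Or.inl fun z => ?_
      rw [(zpow_sign_neg t z hq).1, (zpow_sign_neg t z hq).2, (zpow_sign_neg t z hp).1,
        (zpow_sign_neg t z hp).2]
      exact ⟨id, id⟩
    · refine Or.inr fun z => ?_
      rw [(zpow_sign_neg t z hq).1, (zpow_sign_neg t z hq).2, (zpow_sign t z hp).1,
        (zpow_sign t z hp).2]
      exact ⟨id, id⟩
  · refine Or.inl fun z => ?_
    rw [zpow_zero, one_apply]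
    exact ⟨fun h => absurd h (lt_irrefl _), fun h => absurd h (lt_irrefl _)⟩
  · rcases lt_or_gt_of_ne hp with hp | hp
    · refine Or.inr fun z => ?_
      rw [(zpow_sign t z hq).1, (zpow_sign t z hq).2, (zpow_sign_neg t z hp).1,
        (zpow_sign_neg t z hp).2]
      exact ⟨id, id⟩
    · refine Or.inl fun z => ?_
      rw [(zpow_sign t z hq).1, (zpow_sign t z hq).2, (zpow_sign t z hp).1,
        (zpow_sign t z hp).2]
      exact ⟨id, id⟩

theorem ss_rat (φ : Multiplicative ℤ →* Aut X) {p : ℤ} (hp : p ≠ 0) (q : ℤ) :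
    SS (φ (Multiplicative.ofAdd q)) (φ (Multiplicative.ofAdd p)) := by
  rw [mz φ q, mz φ p]
  exact SS.zpow _ hp q

theorem fa_rat (φ : Multiplicative ℤ →* Aut X) {p : ℤ} (hp : p ≠ 0) {x : X}
    (h : φ (Multiplicative.ofAdd p) x = x) (g : Multiplicative ℤ) : φ g x = x := by
  refine gen_fix φ (fix_of_zpow _ hp ?_) g
  rw [← mz φ p]; exact h

theorem ss_neg {T : Tangle} (φ : Tan.Grp T →* Aut X) :
    SS (φ (Tan.W T.east)) (φ (Tan.B T.south)⁻¹) := Or.inr fun z => by
  rw [map_inv, inv_lt_iff, lt_inv_iff]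
  exact ⟨Tan.up_lt φ z, Tan.down_lt φ z⟩

theorem fa_neg {T : Tangle} (φ : Tan.Grp T →* Aut X) {x : X}
    (hx : φ (Tan.B T.south)⁻¹ x = x) (g : Tan.Grp T) : φ g x = x := by
  refine Tan.fix_all φ x (Tan.fix_white φ x ?_) g
  rw [map_inv] at hx
  rw [← (φ (Tan.B T.south))⁻¹.inj, inv_self, hx]

theorem STang.sg : ∀ T : STang, T.Proper → Sg T.piece
  | .rat _ q, hp => fun _ _ φ => ss_rat φ hp q
  | .pos _ _, _ => fun _ _ φ => Or.inl fun z => ⟨Tan.up_lt φ z, Tan.down_lt φ z⟩
  | .neg _ _, _ => fun _ _ φ => ss_neg φ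

theorem STang.fa : ∀ T : STang, T.Proper → Fa T.piece
  | .rat _ _, hp => fun _ _ φ _ h g => fa_rat φ hp h g
  | .pos _ _, _ => fun _ _ φ x hx g => Tan.fix_all φ x (Tan.fix_white φ x hx) g
  | .neg _ _, _ => fun _ _ φ _ hx g => fa_neg φ hx g

theorem fb_pow (x : Bool × ℤ) : Fb (pow x).2.piece := fun _ _ φ _ h _ g => gen_fix φ h g

end pieces

/-! ### the states of a closed chain -/

section states

variable {l : List (Bool × STang)} (hn : 0 < l.length)

/-- the index `j` modulo the length -/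
def ix (j : ℕ) : Fin l.length := ⟨j % l.length, Nat.mod_lt _ hn⟩

theorem nx_ix (j : ℕ) : nx (ix hn j) = ix hn (j + 1) := Fin.ext (by
  simp only [ix, nx]; rw [Nat.mod_add_mod])

theorem ix_of_lt {j : ℕ} (h : j < l.length) : ix hn j = ⟨j, h⟩ := Fin.ext (Nat.mod_eq_of_lt h)

theorem ix_val (i : Fin l.length) : ix hn i.1 = i := ix_of_lt hn i.2

theorem ix_length : ix hn l.length = ix hn 0 := Fin.ext (by simp [ix])

/-- the state before the letter `j` -/
def st (j : ℕ) : ChainGrp l × ChainGrp l := (Glued.A (ix hn j), Glued.B (ix hn j))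

theorem st_length : st hn l.length = st hn 0 := by
  unfold st; rw [ix_length]

theorem step_general (i : Fin l.length) (x : Bool × STang) (hx : l.get i = x) :
    ∃ f : x.2.piece.P →* ChainGrp l,
      (∀ g : (l.get i).2.piece.P, ∃ g', (Glued.inc (M := fun i : Fin l.length =>
        (l.get i).2.piece) (κ := fun i => (l.get i).1) i g : ChainGrp l) = f g') ∧
      (x.1 = true → (Glued.A i : ChainGrp l) = f x.2.piece.A ∧
        (Glued.A (nx i) : ChainGrp l) = Glued.A i ∧
        (Glued.B (nx i) : ChainGrp l) = Glued.B i * (f x.2.piece.a)⁻¹) ∧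
      (x.1 = false → (Glued.B i : ChainGrp l) = f x.2.piece.A ∧
        (Glued.B (nx i) : ChainGrp l) = Glued.B i ∧
        (Glued.A (nx i) : ChainGrp l) = Glued.A i * f x.2.piece.a) := by
  subst hx
  refine ⟨Glued.inc (M := fun i : Fin l.length => (l.get i).2.piece)
    (κ := fun i => (l.get i).1) i, fun g => ⟨g, rfl⟩, fun h => ?_, fun h => ?_⟩
  · exact Glued.relA (M := fun i : Fin l.length => (l.get i).2.piece)
      (κ := fun i => (l.get i).1) i h
  · exact Glued.relB (M := fun i : Fin l.length => (l.get i).2.piece)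
      (κ := fun i => (l.get i).1) i h

theorem get_mid (pre post : List (Bool × STang)) (x : Bool × STang)
    (hl : l = pre ++ x :: post) : l.get (ix hn pre.length) = x := by
  subst hl
  rw [ix_of_lt hn (by simp)]
  simp

theorem hom_ofAdd {H : Type} [Group H] (f : Multiplicative ℤ →* H) (n : ℤ) :
    f (Multiplicative.ofAdd n) = f (Multiplicative.ofAdd (1 : ℤ)) ^ n := by
  rw [← map_zpow, ← ofAdd_zsmul]; simp

theorem step_pow (pre post : List (Bool × STang)) (x : Bool × ℤ)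
    (hl : l = pre ++ pow x :: post) :
    st hn (pre.length + 1) = runw [x] (st hn pre.length) := by
  obtain ⟨f, -, h1, h2⟩ := step_general (ix hn pre.length) (pow x) (get_mid hn pre post _ hl)
  obtain ⟨k, n⟩ := x
  have e : f (Multiplicative.ofAdd n) = f (Multiplicative.ofAdd (1 : ℤ)) ^ n := hom_ofAdd f n
  cases k
  · obtain ⟨h3, h4, h5⟩ := h2 rfl
    rw [nx_ix] at h4 h5
    change (Glued.A _, Glued.B _) = ((Glued.A _ : ChainGrp l) * (Glued.B _) ^ n, Glued.B _)
    rw [h4, h5, h3]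
    change (_ * f (Multiplicative.ofAdd n), _) = (_ * f (Multiplicative.ofAdd (1 : ℤ)) ^ n, _)
    rw [e]
  · obtain ⟨h3, h4, h5⟩ := h1 rfl
    rw [nx_ix] at h4 h5
    change (Glued.A _, Glued.B _) = (Glued.A _, (Glued.B _ : ChainGrp l) * ((Glued.A _) ^ n)⁻¹)
    rw [h4, h5, h3]
    change (_, _ * (f (Multiplicative.ofAdd n))⁻¹) =
      (_, _ * (f (Multiplicative.ofAdd (1 : ℤ)) ^ n)⁻¹)
    rw [e]

theorem seg : ∀ (w : List (Bool × ℤ)) (pre post : List (Bool × STang)),
    l = pre ++ (w.map pow ++ post) → st hn (pre.length + w.length) = runw w (st hn pre.length)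
  | [], _, _, _ => rfl
  | x :: w, pre, post, hl => by
    have h1 := step_pow hn pre (w.map pow ++ post) x hl
    have h2 := seg w (pre ++ [pow x]) post (by rw [hl]; simp)
    rw [List.length_append, List.length_singleton] at h2
    have h3 : pre.length + (x :: w).length = pre.length + 1 + w.length := by
      rw [List.length_cons]; omega
    rw [h3, h2, h1]
    obtain ⟨k, n⟩ := x
    cases k <;> rfl

end states

/-! ### inverse words -/

section inverse

variable {G : Type} [Group G]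

theorem val_append {Q : Type} [Group Q] (X Y : Q) : ∀ l₁ l₂ : List (Bool × ℤ),
    val X Y (l₁ ++ l₂) = val X Y l₂ * val X Y l₁
  | [], _ => by rw [List.nil_append]; exact (mul_one _).symm
  | (true, n) :: l₁, l₂ => by
    change val X Y (l₁ ++ l₂) * X ^ n = val X Y l₂ * (val X Y l₁ * X ^ n)
    rw [val_append X Y l₁ l₂, mul_assoc]
  | (false, n) :: l₁, l₂ => by
    change val X Y (l₁ ++ l₂) * Y ^ n = val X Y l₂ * (val X Y l₁ * Y ^ n)
    rw [val_append X Y l₁ l₂, mul_assoc]

theorem inv_cons (x : Bool × ℤ) (w : List (Bool × ℤ)) : inv (x :: w) = inv w ++ [(x.1, -x.2)] := by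
  simp [inv]

theorem val_inv {Q : Type} [Group Q] (X Y : Q) : ∀ w : List (Bool × ℤ),
    val X Y (inv w) = (val X Y w)⁻¹
  | [] => by simp [inv, val]
  | (true, n) :: w => by
    rw [inv_cons, val_append, val_inv X Y w]
    change (1 * X ^ (-n)) * (val X Y w)⁻¹ = (val X Y w * X ^ n)⁻¹
    rw [one_mul, mul_inv_rev, zpow_neg]
  | (false, n) :: w => by
    rw [inv_cons, val_append, val_inv X Y w]
    change (1 * Y ^ (-n)) * (val X Y w)⁻¹ = (val X Y w * Y ^ n)⁻¹
    rw [one_mul, mul_inv_rev, zpow_neg]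

theorem runw_inv (w : List (Bool × ℤ)) (s : G × G) : runw w (runw (inv w) s) = s := by
  rw [runw_eq, runw_eq, val_inv, ← Equiv.Perm.mul_apply, mul_inv_cancel]; rfl

theorem runw_inv' (w : List (Bool × ℤ)) (s : G × G) : runw (inv w) (runw w s) = s := by
  rw [runw_eq, runw_eq, val_inv, ← Equiv.Perm.mul_apply, inv_mul_cancel]; rfl

theorem runw_mem (H : Subgroup G) : ∀ (w : List (Bool × ℤ)) (s : G × G),
    s.1 ∈ H → s.2 ∈ H → (runw w s).1 ∈ H ∧ (runw w s).2 ∈ H
  | [], _, h1, h2 => ⟨h1, h2⟩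
  | (true, n) :: w, s, h1, h2 => runw_mem H w (s.1, s.2 * (s.1 ^ n)⁻¹) h1
      (H.mul_mem h2 (H.inv_mem (H.zpow_mem h1 n)))
  | (false, n) :: w, s, h1, h2 => runw_mem H w (s.1 * s.2 ^ n, s.2)
      (H.mul_mem h1 (H.zpow_mem h2 n)) h2

end inverse

end Pool.Agent.K7.H38.KN
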