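import Pool.Agent.K7.H38.KN.Chain

set_option autoImplicit false

/-!
# Actions on complete linear orders; pairs `A`, `a` such that the fixed points of `a` are fixed by `A`
-/

namespace Pool.Agent.K7.H38.KN

open Pool.Agent.Y479.LS Aut Pool.Agent.W705.Borr

/-! ### reduction to positive words, in any group -/

section reduce

variable {G : Type} [Group G]

/-- `Ty` for a conjugate of the pair `A`, `a` or of the pair of their inverses. -/
def Tz (A a : G) (s s' : G × G) : Prop :=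
  ∃ k, Ty (k * A * k⁻¹) (k * a * k⁻¹) s s' ∨ Ty (k * A⁻¹ * k⁻¹) (k * a⁻¹ * k⁻¹) s s'

theorem Ty.tz {A a : G} {s s' : G × G} (h : Ty A a s s') : Tz A a s s' := by
  refine ⟨1, Or.inl ?_⟩
  simpa using h

theorem Tz.x {A a : G} {s s' : G × G} (h : Tz A a s s') (n : ℤ) :
    Tz A a ((mX ^ n) s) ((mX ^ n) s') := by
  obtain ⟨k, h | h⟩ := h
  · exact ⟨k, Or.inl (h.x n)⟩
  · exact ⟨k, Or.inr (h.x n)⟩

theorem conj1 (k k' A : G) : k' * (k * A * k⁻¹)⁻¹ * k'⁻¹ = (k' * k) * A⁻¹ * (k' * k)⁻¹ := by group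
theorem conj2 (k k' A : G) : k' * (k * A⁻¹ * k⁻¹)⁻¹ * k'⁻¹ = (k' * k) * A * (k' * k)⁻¹ := by group

theorem Tz.d {A a : G} {s s' : G × G} (h : Tz A a s s') :
    Tz A a (dd mX mY s) (dd mX mY s') := by
  obtain ⟨k, h | h⟩ := h
  · obtain ⟨k', h'⟩ := h.d
    rw [conj1, conj1] at h'
    exact ⟨k' * k, Or.inr h'⟩
  · obtain ⟨k', h'⟩ := h.d
    rw [conj2, conj2] at h'
    exact ⟨k' * k, Or.inl h'⟩

theorem Tz.d' {A a : G} {s s' : G × G} (h : Tz A a s s') :
    Tz A a ((dd mX mY)⁻¹ s) ((dd mX mY)⁻¹ s') := by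
  obtain ⟨k, h | h⟩ := h
  · obtain ⟨k', h'⟩ := h.d'
    rw [conj1, conj1] at h'
    exact ⟨k' * k, Or.inr h'⟩
  · obtain ⟨k', h'⟩ := h.d'
    rw [conj2, conj2] at h'
    exact ⟨k' * k, Or.inl h'⟩

theorem Tz.dz {A a : G} (n : ℤ) : ∀ {s s' : G × G}, Tz A a s s' →
    Tz A a ((dd mX mY ^ n) s) ((dd mX mY ^ n) s') := by
  induction n with
  | zero => intro s s' h; exact h
  | succ n ih => intro s s' h; rw [zpow_add_one]; exact ih h.d
  | pred n ih => intro s s' h; rw [zpow_sub_one]; exact ih h.d'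

/-- Reduction to a positive word. -/
theorem reduce {w : List (Bool × ℤ)} (hN : cross w ≠ 0) {s s' : G × G} {A a : G}
    (ht : Ty A a s s') {A₂ B₂ u : G} (h1 : runw w s = (A₂, B₂)) (h2 : runw w s' = (A₂, B₂ * u))
    (hu : A₂ * u = u * A₂) : ∃ (l : List Bool) (m g v k : G) (i : ℤ), false ∈ l ∧ m * v = v * m ∧
      ((m = k * A * k⁻¹ ∧ v = k * a * k⁻¹) ∨ (m = k * A⁻¹ * k⁻¹ ∧ v = k * a⁻¹ * k⁻¹)) ∧
      run l (m, g) = (A₂, B₂ * A₂ ^ i) ∧ run l (m, g * v) = (A₂, B₂ * A₂ ^ i * u) := by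
  obtain ⟨c, hc⟩ := eqv_val w
  have hl : false ∈ c.l := false_mem hN hc
  have hv : val (mX (G := G)) mY w = c.ev mX mY := hc (Equiv.Perm (G × G)) mX mY br_m
  have hq' : Tz A a ((mX ^ c.j) ((dd mX mY ^ c.k) s)) ((mX ^ c.j) ((dd mX mY ^ c.k) s')) :=
    (ht.tz.dz c.k).x c.j
  have main : ∀ m v, Ty m v ((mX ^ c.j) ((dd mX mY ^ c.k) s)) ((mX ^ c.j) ((dd mX mY ^ c.k) s')) →
      ∃ g, m * v = v * m ∧ run c.l (m, g) = (A₂, B₂ * A₂ ^ c.i) ∧
        run c.l (m, g * v) = (A₂, B₂ * A₂ ^ c.i * u) := by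
    rintro m v ⟨g, e1, e2, hcm⟩
    refine ⟨g, hcm, ?_, ?_⟩
    · have h3 : (mX ^ c.i) (run c.l (m, g)) = (A₂, B₂) := by
        rw [← h1, runw_eq, hv, Code.ev, Equiv.Perm.mul_apply, Equiv.Perm.mul_apply,
          Equiv.Perm.mul_apply, e1, pw_m]
      rw [← Equiv.Perm.eq_inv_iff_eq, ← zpow_neg, mX_zpow] at h3
      rw [h3]
      simp only [zpow_neg, inv_inv]
    · have h3 : (mX ^ c.i) (run c.l (m, g * v)) = (A₂, B₂ * u) := by
        rw [← h2, runw_eq, hv, Code.ev, Equiv.Perm.mul_apply, Equiv.Perm.mul_apply,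
          Equiv.Perm.mul_apply, e2, pw_m]
      rw [← Equiv.Perm.eq_inv_iff_eq, ← zpow_neg, mX_zpow] at h3
      rw [h3]
      simp only [zpow_neg, inv_inv, Prod.mk.injEq, true_and]
      have h4 : Commute (A₂ ^ c.i) u := (show Commute A₂ u from hu).zpow_left _
      rw [mul_assoc, mul_assoc, h4.eq]
  obtain ⟨k, h | h⟩ := hq'
  · obtain ⟨g, e1, e2, e3⟩ := main _ _ h
    exact ⟨c.l, _, g, _, k, c.i, hl, e1, Or.inl ⟨rfl, rfl⟩, e2, e3⟩
  · obtain ⟨g, e1, e2, e3⟩ := main _ _ h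
    exact ⟨c.l, _, g, _, k, c.i, hl, e1, Or.inr ⟨rfl, rfl⟩, e2, e3⟩

end reduce

/-! ### complete linear orders -/

section vc

variable {X : Type} [LinearOrder X]

/-- The fixed points of `a` are fixed by `A`. -/
def VC (A a : Aut X) : Prop := ∀ z, a z = z → A z = z

theorem inv_fix_iff (A : Aut X) (z : X) : A⁻¹ z = z ↔ A z = z := by
  rw [← A.inj, self_inv]; exact eq_comm

theorem VC.inv {A a : Aut X} (h : VC A a) : VC A⁻¹ a⁻¹ := by
  intro z hz
  rw [inv_fix_iff] at hz ⊢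
  exact h z hz

theorem VC.conj {A a : Aut X} (h : VC A a) (k : Aut X) : VC (k * A * k⁻¹) (k * a * k⁻¹) := by
  intro z hz
  have h1 : a (k⁻¹ z) = k⁻¹ z := by
    rw [← k.inj, self_inv]; exact hz
  have h2 := h _ h1
  rw [mul_apply, mul_apply, h2, self_inv]

theorem VC.dual {A a : Aut X} (h : VC A a) : VC (Aut.dual A) (Aut.dual a) :=
  fun z hz => h (OrderDual.ofDual z) hz

end vc

section complete

variable {X : Type} [CompleteLinearOrder X]

/-- If `m` moves the points between `m z₀` and `m⁻¹ z₀` down then `v` moves them in one direction. -/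
theorem const_sign {m v : Aut X} {z₀ : X} (h0 : z₀ < m⁻¹ z₀) (hv : VC m v) :
    (∀ z, m z₀ ≤ z → z ≤ m⁻¹ z₀ → z < v z) ∨ (∀ z, m z₀ ≤ z → z ≤ m⁻¹ z₀ → v z < z) := by
  have nf : ∀ z, m z₀ ≤ z → z ≤ m⁻¹ z₀ → v z ≠ z := fun z h1 h2 h3 =>
    (lt_of_between h0 h1 h2).ne (hv z h3)
  by_contra hcon
  rw [not_or] at hcon
  obtain ⟨c1, c2⟩ := hcon
  push Not at c1 c2
  obtain ⟨z₁, a1, a2, a3⟩ := c1
  obtain ⟨z₂, b1, b2, b3⟩ := c2
  have a4 : v z₁ < z₁ := lt_of_le_of_ne a3 (nf z₁ a1 a2)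
  have b4 : z₂ < v z₂ := lt_of_le_of_ne b3 (nf z₂ b1 b2).symm
  rcases le_total z₁ z₂ with h | h
  · obtain ⟨t, t1, t2, t3⟩ := ivt (v : X ≃o X) h a4.le b4
    exact nf t (a1.trans t1) (t2.le.trans b2) t3
  · obtain ⟨t, t1, t2, t3⟩ := ivt' (v : X ≃o X) h a4.le b4
    exact nf t (b1.trans t1.le) (t2.trans a2) t3

theorem cposword_up : ∀ (l : List Bool), false ∈ l → ∀ (m g v : Aut X) (z₀ : X), m * v = v * m →
    VC m v → (run l (m, g)).1 z₀ = z₀ → (run l (m, g * v)).1 z₀ = z₀ →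
    (run l (m, g)).2 z₀ = (run l (m, g * v)).2 z₀ → ¬ z₀ < (run l (m, g)).2 z₀
  | [], h, _, _, _, _, _, _, _, _, _ => absurd h List.not_mem_nil
  | true :: l, h, m, g, v, z₀, hc, hs, h1, h2, h3 => by
    have h4 : false ∈ l := by
      rcases List.mem_cons.mp h with h | h
      · exact absurd h (by decide)
      · exact h
    rw [run_true] at h1 h2 h3 ⊢
    rw [run_true] at h3
    have e : g * v * m = g * m * v := by rw [mul_assoc, ← hc, ← mul_assoc]
    rw [e] at h2 h3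
    exact cposword_up l h4 m (g * m) v z₀ hc hs h1 h2 h3
  | false :: l, _, m, g, v, z₀, _, hs, h1, h2, h3 => by
    by_cases h0 : z₀ < m⁻¹ z₀
    · rcases const_sign h0 hs with hs | hs
      · refine compare (m := m) (g := g) (h := g * v) (fun h0 z hz1 hz2 => ?_) h1 h3
        rw [mul_apply, g.lt_iff]
        exact hs z hz1 hz2
      · rw [h3]
        refine compare (m := m) (g := g * v) (h := g) (fun h0 z hz1 hz2 => ?_) h2 h3.symm
        rw [mul_apply, g.lt_iff]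
        exact hs z hz1 hz2
    · exact compare (m := m) (g := g) (h := g * v) (fun h => absurd h h0) h1 h3

theorem cposword {l : List Bool} (hl : false ∈ l) {m g v : Aut X} {z₀ : X} (hc : m * v = v * m)
    (hs : VC m v) (h1 : (run l (m, g)).1 z₀ = z₀) (h2 : (run l (m, g * v)).1 z₀ = z₀)
    (h3 : (run l (m, g)).2 z₀ = (run l (m, g * v)).2 z₀) : (run l (m, g)).2 z₀ = z₀ := by
  rcases lt_trichotomy ((run l (m, g)).2 z₀) z₀ with h | h | h
  · exfalso
    refine cposword_up l hl (Aut.dual m) (Aut.dual g) (Aut.dual v) (OrderDual.toDual z₀) ?_ hs.dual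
      ?_ ?_ ?_ ?_
    · rw [← map_mul, ← map_mul, hc]
    · rw [run_map]; exact h1
    · rw [← map_mul, run_map]; exact h2
    · rw [← map_mul, run_map, run_map]; exact h3
    · rw [run_map]; exact h
  · exact h
  · exact absurd h (cposword_up l hl m g v z₀ hc hs h1 h2 h3)

/-- The main theorem for actions on complete linear orders. -/
theorem core_fix {w : List (Bool × ℤ)} (hN : cross w ≠ 0) {s s' : Aut X × Aut X} {A a : Aut X}
    (ht : Ty A a s s') (hv : VC A a) {A₂ B₂ u : Aut X} (h1 : runw w s = (A₂, B₂))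
    (h2 : runw w s' = (A₂, B₂ * u)) (hu : A₂ * u = u * A₂) (z : X) (hz1 : A₂ z = z)
    (hz2 : u z = z) : B₂ z = z := by
  obtain ⟨l, m, g, v, k, i, hl, hcm, hmv, r1, r2⟩ := reduce hN ht h1 h2 hu
  have hs : VC m v := by
    rcases hmv with ⟨rfl, rfl⟩ | ⟨rfl, rfl⟩
    · exact hv.conj k
    · exact hv.inv.conj k
  have h3 := cposword (l := l) hl (m := m) (g := g) (v := v) (z₀ := z) hcm hs
    (by rw [r1]; exact hz1) (by rw [r2]; exact hz1) (by
      rw [r1, r2]
      change (B₂ * A₂ ^ i) z = (B₂ * A₂ ^ i * u) z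
      rw [mul_apply _ u, hz2])
  rw [r1] at h3
  change (B₂ * A₂ ^ i) z = z at h3
  rwa [mul_apply, zpow_fix _ hz1] at h3

/-- A fixed point of `b` and a fixed point of `l ^ z * b ^ t`, `z ≠ 0`, enclose a common fixed point of
`l` and `b`. -/
theorem common {l b : Aut X} (hc : Commute l b) {z t : ℤ} (hz : z ≠ 0) {x f : X}
    (hx : (l ^ z * b ^ t) x = x) (hf : b f = f) (hfx : f ≤ x) :
    ∃ S, f ≤ S ∧ S ≤ x ∧ l S = S ∧ b S = S := by
  have e : ∀ k : ℤ, ((l ^ z) ^ k) f ≤ x := by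
    intro k
    have h1 : ((l ^ z * b ^ t) ^ k) f ≤ ((l ^ z * b ^ t) ^ k) x := (le_iff _).mpr hfx
    rw [zpow_fix _ hx, ((hc.zpow_zpow z t).mul_zpow k), mul_apply, zpow_fix _ (zpow_fix _ hf t)] at h1
    exact h1
  set S : X := ⨆ k : ℤ, ((l ^ z) ^ k) f with hS
  have h0 : f ≤ S := le_iSup (fun k : ℤ => ((l ^ z) ^ k) f) 0
  refine ⟨S, h0, iSup_le e, ?_, ?_⟩
  · refine fix_of_zpow l hz ?_
    apply le_antisymm
    · rw [hS]
      refine le_trans (le_of_eq ((l ^ z : X ≃o X).map_iSup _)) (iSup_le fun k => ?_)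
      refine le_trans (le_of_eq ?_) (le_iSup (fun k : ℤ => ((l ^ z) ^ k) f) (1 + k))
      change (l ^ z) (((l ^ z) ^ k) f) = ((l ^ z) ^ (1 + k)) f
      rw [← mul_apply, ← zpow_one_add]
    · rw [hS]
      refine iSup_le fun k => ?_
      refine le_trans ?_ (le_of_eq ((l ^ z : X ≃o X).map_iSup _).symm)
      refine le_trans (le_of_eq ?_) (le_iSup (fun k : ℤ => (l ^ z) (((l ^ z) ^ k) f)) (k - 1))
      rw [← mul_apply, ← zpow_one_add]
      congr 2; ring
  · have h1 : ∀ k : ℤ, b (((l ^ z) ^ k) f) = ((l ^ z) ^ k) f := by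
      intro k
      have h2 : b * (l ^ z) ^ k = (l ^ z) ^ k * b := ((hc.zpow_left z).zpow_left k).symm
      rw [← mul_apply, h2, mul_apply, hf]
    apply le_antisymm
    · rw [hS]
      refine le_trans (le_of_eq ((b : X ≃o X).map_iSup _)) (iSup_le fun k => ?_)
      exact le_trans (le_of_eq (h1 k)) (le_iSup (fun k : ℤ => ((l ^ z) ^ k) f) k)
    · rw [hS]
      refine iSup_le fun k => ?_
      refine le_trans ?_ (le_of_eq ((b : X ≃o X).map_iSup _).symm)
      exact le_trans (le_of_eq (h1 k).symm) (le_iSup (fun k : ℤ => b (((l ^ z) ^ k) f)) k)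

end complete

/-- The general part of the main theorem: `u⁻¹` does not move all points up. -/
theorem core_up {X : Type} [LinearOrder X] [Nonempty X] {w : List (Bool × ℤ)} (hN : cross w ≠ 0)
    {s s' : Aut X × Aut X} {A a : Aut X} (ht : Ty A a s s') {A₂ B₂ u : Aut X}
    (h1 : runw w s = (A₂, B₂)) (h2 : runw w s' = (A₂, B₂ * u)) (hu : A₂ * u = u * A₂) :
    ¬ ∀ z, z < u⁻¹ z := by
  obtain ⟨l, m, g, v, k, i, hl, hcm, hmv, r1, r2⟩ := reduce hN ht h1 h2 hu
  exact posword_not_up (l := l) hl (m := m) (g := g) (v := v) (u := u) (by rw [r1, r2])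
    (by rw [r1, r2])

/-- Passage to the order of the lower sets. -/
def lift (X : Type) [LinearOrder X] : Aut X →* Aut (LowerSet X) where
  toFun f := LowerSet.map (f : X ≃o X)
  map_one' := by
    apply ext'
    intro s
    exact LowerSet.ext (by
      change (fun x => x) '' (s : Set X) = s
      simp)
  map_mul' f g := by
    apply ext'
    intro s
    exact LowerSet.ext (by
      change (fun x => f (g x)) '' (s : Set X) = (fun x => f x) '' ((fun x => g x) '' (s : Set X))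
      rw [Set.image_image])

theorem lift_Iic {X : Type} [LinearOrder X] (f : Aut X) (x : X) :
    lift X f (LowerSet.Iic x) = LowerSet.Iic (f x) := LowerSet.map_Iic (f : X ≃o X) x

/-- It is enough to consider complete linear orders. -/
theorem to_complete {Γ : Type} [Group Γ] (g : Γ)
    (hc : ∀ (X : Type) [CompleteLinearOrder X] (φ : Γ →* Aut X) (x : X), φ g x = x →
      ∀ γ, φ γ x = x)
    (X : Type) [LinearOrder X] (φ : Γ →* Aut X) (x : X) (hx : φ g x = x) (γ : Γ) : φ γ x = x := by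
  have h1 := hc (LowerSet X) ((lift X).comp φ) (LowerSet.Iic x) (by
    rw [MonoidHom.comp_apply, lift_Iic, hx]) γ
  rw [MonoidHom.comp_apply, lift_Iic] at h1
  have h2 : φ γ x ∈ LowerSet.Iic x := by rw [← h1]; exact LowerSet.mem_Iic_iff.mpr le_rfl
  have h3 : x ∈ LowerSet.Iic (φ γ x) := by rw [h1]; exact LowerSet.mem_Iic_iff.mpr le_rfl
  exact le_antisymm (LowerSet.mem_Iic_iff.mp h2) (LowerSet.mem_Iic_iff.mp h3)

end Pool.Agent.K7.H38.KN
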