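import Pool.Agent.K7.H38.KN.Chain

set_option autoImplicit false

/-!
# Homomorphisms from the group of the closed chain `T₁ w T₂ w⁻¹` to left-orderable groups
-/

namespace Pool.Agent.K7.H38.KN

open Pool.Agent.Y479.LS Aut Pool.Agent.K7.H39.TB

variable {T₁ T₂ : STang} {w : List (Bool × ℤ)}

theorem len : (doubled T₁ w T₂).length = 2 * w.length + 2 := by
  simp [doubled, inv]; ring

theorem hn : 0 < (doubled T₁ w T₂).length := by rw [len]; omega

/-- the states of the chain -/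
abbrev S (T₁ : STang) (w : List (Bool × ℤ)) (T₂ : STang) (j : ℕ) :
    ChainGrp (doubled T₁ w T₂) × ChainGrp (doubled T₁ w T₂) := st hn j

theorem first : ∃ f : T₁.piece.P →* ChainGrp (doubled T₁ w T₂),
    (S T₁ w T₂ 0).1 = f T₁.piece.A ∧
    S T₁ w T₂ 1 = ((S T₁ w T₂ 0).1, (S T₁ w T₂ 0).2 * (f T₁.piece.a)⁻¹) := by
  obtain ⟨f, -, h, -⟩ := step_general (ix hn 0) (true, T₁)
    (get_mid hn [] (w.map pow ++ (true, T₂) :: (inv w).map pow) (true, T₁) rfl)
  obtain ⟨h1, h2, h3⟩ := h rfl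
  rw [nx_ix] at h2 h3
  exact ⟨f, h1, Prod.ext h2 h3⟩

theorem second : ∃ f : T₂.piece.P →* ChainGrp (doubled T₁ w T₂),
    (S T₁ w T₂ (w.length + 1)).1 = f T₂.piece.A ∧
    S T₁ w T₂ (w.length + 2) = ((S T₁ w T₂ (w.length + 1)).1,
      (S T₁ w T₂ (w.length + 1)).2 * (f T₂.piece.a)⁻¹) := by
  have hlen : ((true, T₁) :: w.map pow).length = w.length + 1 := by simp
  have hg := get_mid (l := doubled T₁ w T₂) hn ((true, T₁) :: w.map pow) ((inv w).map pow)
    (true, T₂) rfl
  rw [hlen] at hg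
  obtain ⟨f, -, h, -⟩ := step_general (ix hn (w.length + 1)) (true, T₂) hg
  obtain ⟨h1, h2, h3⟩ := h rfl
  rw [nx_ix] at h2 h3
  exact ⟨f, h1, Prod.ext h2 h3⟩

theorem seg₁ (k : ℕ) (hk : k ≤ w.length) :
    S T₁ w T₂ (1 + k) = runw (w.take k) (S T₁ w T₂ 1) := by
  have h := seg (l := doubled T₁ w T₂) hn (w.take k) [(true, T₁)]
    ((w.drop k).map pow ++ (true, T₂) :: (inv w).map pow) (by
      have e : w.map pow = (w.take k).map pow ++ (w.drop k).map pow := by
        rw [← List.map_append, List.take_append_drop]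
      unfold doubled
      rw [e, List.append_assoc, List.singleton_append])
  rw [List.length_take, min_eq_left hk, List.length_singleton] at h
  exact h

theorem seg₂ (k : ℕ) (hk : k ≤ w.length) :
    S T₁ w T₂ (w.length + 2 + k) = runw ((inv w).take k) (S T₁ w T₂ (w.length + 2)) := by
  have hlen : ((true, T₁) :: (w.map pow ++ [(true, T₂)])).length = w.length + 2 := by simp
  have h := seg (l := doubled T₁ w T₂) hn ((inv w).take k)
    ((true, T₁) :: (w.map pow ++ [(true, T₂)])) (((inv w).drop k).map pow) (by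
      rw [← List.map_append, List.take_append_drop]
      simp [doubled])
  have hl : (inv w).length = w.length := by simp [inv]
  rw [List.length_take, hl, min_eq_left hk, hlen] at h
  exact h

theorem whole₁ : S T₁ w T₂ (w.length + 1) = runw w (S T₁ w T₂ 1) := by
  have h := seg₁ (T₁ := T₁) (T₂ := T₂) w.length le_rfl
  rwa [List.take_length, add_comm] at h

theorem whole₂ : S T₁ w T₂ 0 = runw (inv w) (S T₁ w T₂ (w.length + 2)) := by
  have h := seg₂ (T₁ := T₁) (T₂ := T₂) w.length le_rfl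
  have hl : (inv w).length = w.length := by simp [inv]
  rw [← hl, List.take_length, hl] at h
  rw [← h]
  have h1 := st_length (l := doubled T₁ w T₂) hn
  rw [len] at h1
  have h2 : w.length + 2 + w.length = 2 * w.length + 2 := by ring
  rw [h2]
  exact h1.symm

/-- If the states 1 and `w.length + 1`, and the group of the second tangle, fix a point, then all
states fix it. -/
theorem all_states (H : Subgroup (ChainGrp (doubled T₁ w T₂)))
    (h1 : (S T₁ w T₂ 1).1 ∈ H ∧ (S T₁ w T₂ 1).2 ∈ H)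
    (h2 : (S T₁ w T₂ (w.length + 2)).1 ∈ H ∧ (S T₁ w T₂ (w.length + 2)).2 ∈ H) (j : ℕ) :
    (S T₁ w T₂ j).1 ∈ H ∧ (S T₁ w T₂ j).2 ∈ H := by
  have key : ∀ j, j < 2 * w.length + 2 → (S T₁ w T₂ j).1 ∈ H ∧ (S T₁ w T₂ j).2 ∈ H := by
    intro j hj
    rcases Nat.eq_zero_or_pos j with rfl | h0
    · rw [whole₂]
      exact runw_mem H _ _ h2.1 h2.2
    · rcases le_or_gt j (w.length + 1) with h3 | h3
      · obtain ⟨k, rfl⟩ := Nat.exists_eq_add_of_le (show 1 ≤ j from h0)
        rw [seg₁ k (by omega)]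
        exact runw_mem H _ _ h1.1 h1.2
      · obtain ⟨k, rfl⟩ := Nat.exists_eq_add_of_le (show w.length + 2 ≤ j from h3)
        rw [seg₂ k (by omega)]
        exact runw_mem H _ _ h2.1 h2.2
  have h3 : S T₁ w T₂ j = S T₁ w T₂ (j % (doubled T₁ w T₂).length) := by
    have : ix (l := doubled T₁ w T₂) hn j = ix hn (j % (doubled T₁ w T₂).length) :=
      Fin.ext (by simp [ix])
    change (Glued.A (ix hn j), Glued.B (ix hn j)) = (Glued.A (ix hn _), Glued.B (ix hn _))
    rw [this]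
  rw [h3]
  refine key _ ?_
  rw [← len (T₁ := T₁) (T₂ := T₂)]
  exact Nat.mod_lt _ hn

theorem pieces_fb (h₁ : T₁.Proper) (h₂ : T₂.Proper) :
    ∀ y ∈ doubled T₁ w T₂, Fb y.2.piece := by
  intro y hy
  have fab : ∀ T : STang, T.Proper → Fb T.piece := fun T hT X _ φ x _ h g => T.fa hT X φ x h g
  rcases List.mem_cons.mp hy with rfl | hy
  · exact fab _ h₁
  · rcases List.mem_append.mp hy with hy | hy
    · obtain ⟨x, -, rfl⟩ := List.mem_map.mp hy
      exact fb_pow x
    · rcases List.mem_cons.mp hy with rfl | hy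
      · exact fab _ h₂
      · obtain ⟨x, -, rfl⟩ := List.mem_map.mp hy
        exact fb_pow x

/-- If all states fix a point then the whole group does. -/
theorem all_fixed (h₁ : T₁.Proper) (h₂ : T₂.Proper) {X : Type} [LinearOrder X]
    (φ : ChainGrp (doubled T₁ w T₂) →* Aut X) (x : X)
    (hx : ∀ j, φ (S T₁ w T₂ j).1 x = x ∧ φ (S T₁ w T₂ j).2 x = x)
    (γ : ChainGrp (doubled T₁ w T₂)) : φ γ x = x := by
  have hA : ∀ i : Fin (doubled T₁ w T₂).length, φ (Glued.A i) x = x := by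
    intro i
    have := (hx i.1).1
    change φ (Glued.A (ix hn i.1)) x = x at this
    rwa [ix_val] at this
  have hB : ∀ i : Fin (doubled T₁ w T₂).length, φ (Glued.B i) x = x := by
    intro i
    have := (hx i.1).2
    change φ (Glued.B (ix hn i.1)) x = x at this
    rwa [ix_val] at this
  have hmem : γ ∈ Subgroup.closure (Set.range (PresentedGroup.of
      (rels := Glued.relators (fun i : Fin (doubled T₁ w T₂).length =>
        ((doubled T₁ w T₂).get i).2.piece) (fun i => ((doubled T₁ w T₂).get i).1)))) := by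
    rw [PresentedGroup.closure_range_of]; trivial
  induction hmem using Subgroup.closure_induction with
  | mem y hy =>
    obtain ⟨(i | i) | ⟨i, g⟩, rfl⟩ := hy
    · exact hA i
    · exact hB i
    · have hf := pieces_fb (w := w) h₁ h₂ _ (List.get_mem (doubled T₁ w T₂) i)
      refine hf X (φ.comp (Glued.inc (M := fun i : Fin (doubled T₁ w T₂).length =>
        ((doubled T₁ w T₂).get i).2.piece) (κ := fun i => ((doubled T₁ w T₂).get i).1) i)) x ?_ ?_ g
      · cases hk : ((doubled T₁ w T₂).get i).1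
        · obtain ⟨h1, -⟩ := Glued.relB (M := fun i : Fin (doubled T₁ w T₂).length =>
            ((doubled T₁ w T₂).get i).2.piece) (κ := fun i => ((doubled T₁ w T₂).get i).1) i hk
          rw [MonoidHom.comp_apply, ← h1]; exact hB i
        · obtain ⟨h1, -⟩ := Glued.relA (M := fun i : Fin (doubled T₁ w T₂).length =>
            ((doubled T₁ w T₂).get i).2.piece) (κ := fun i => ((doubled T₁ w T₂).get i).1) i hk
          rw [MonoidHom.comp_apply, ← h1]; exact hA i
      · cases hk : ((doubled T₁ w T₂).get i).1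
        · obtain ⟨-, -, h1⟩ := Glued.relB (M := fun i : Fin (doubled T₁ w T₂).length =>
            ((doubled T₁ w T₂).get i).2.piece) (κ := fun i => ((doubled T₁ w T₂).get i).1) i hk
          have h2 := hA (nx i)
          rw [h1, map_mul, mul_apply] at h2
          rw [MonoidHom.comp_apply, ← (φ (Glued.A i)).inj, h2, hA i]
        · obtain ⟨-, -, h1⟩ := Glued.relA (M := fun i : Fin (doubled T₁ w T₂).length =>
            ((doubled T₁ w T₂).get i).2.piece) (κ := fun i => ((doubled T₁ w T₂).get i).1) i hk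
          have h2 := hB (nx i)
          rw [h1, map_mul, mul_apply, map_inv] at h2
          have h3 : (φ (Glued.inc i ((doubled T₁ w T₂).get i).2.piece.a))⁻¹ x = x := by
            rw [← (φ (Glued.B i)).inj, h2, hB i]
          rw [MonoidHom.comp_apply]
          rw [← (φ (Glued.inc i ((doubled T₁ w T₂).get i).2.piece.a))⁻¹.inj, inv_self, h3]
  | one => rw [map_one, Aut.one_apply]
  | mul y z _ _ h5 h6 => rw [map_mul, Aut.mul_apply, h6, h5]
  | inv y _ h5 => rw [map_inv, ← Aut.inj (φ y), Aut.self_inv, h5]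

/-- **The main theorem.** -/
theorem noLO (h₁ : T₁.Proper) (h₂ : T₂.Proper) (hN : cross w ≠ 0) :
    NoLO (ChainGrp (doubled T₁ w T₂)) := by
  obtain ⟨f₁, a1, a2⟩ := first (T₁ := T₁) (T₂ := T₂) (w := w)
  obtain ⟨f₂, b1, b2⟩ := second (T₁ := T₁) (T₂ := T₂) (w := w)
  have core' : ∀ (X : Type) [LinearOrder X] (φ : ChainGrp (doubled T₁ w T₂) →* Aut X),
      (∀ z, φ (f₂ T₂.piece.A) z = z → φ (f₂ T₂.piece.a)⁻¹ z = z →
        φ (S T₁ w T₂ (w.length + 1)).2 z = z) ∧
      (Nonempty X → ¬ ∀ z, z < φ (f₂ T₂.piece.a) z) := by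
    intro X _ φ
    have hq : QQ (φ (S T₁ w T₂ 1).1, φ (S T₁ w T₂ 1).2) (φ (S T₁ w T₂ 0).1, φ (S T₁ w T₂ 0).2) := by
      refine ⟨φ (f₁ T₁.piece.A), φ (f₁ T₁.piece.a), ⟨φ (S T₁ w T₂ 1).2, ?_, ?_, ?_⟩, ?_⟩
      · rw [a2]
        change (φ (S T₁ w T₂ 0).1, _) = _
        rw [a1]
      · rw [a2]
        change _ = (_, φ ((S T₁ w T₂ 0).2 * (f₁ T₁.piece.a)⁻¹) * _)
        rw [a1, ← map_mul, inv_mul_cancel_right]
      · rw [← map_mul, ← map_mul, ← map_mul, ← map_mul, T₁.piece.comm]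
      · exact T₁.sg h₁ X (φ.comp f₁)
    have e1 : runw w (φ (S T₁ w T₂ 1).1, φ (S T₁ w T₂ 1).2) =
        (φ (f₂ T₂.piece.A), φ (S T₁ w T₂ (w.length + 1)).2) := by
      rw [runw_map φ w (S T₁ w T₂ 1), ← whole₁, b1]
    have e2 : runw w (φ (S T₁ w T₂ 0).1, φ (S T₁ w T₂ 0).2) =
        (φ (f₂ T₂.piece.A), φ (S T₁ w T₂ (w.length + 1)).2 * φ (f₂ T₂.piece.a)⁻¹) := by
      rw [runw_map φ w (S T₁ w T₂ 0), whole₂, runw_inv, b2, ← map_mul]
      change (φ (S T₁ w T₂ (w.length + 1)).1, _) = _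
      rw [b1]
    have hu : φ (f₂ T₂.piece.A) * φ (f₂ T₂.piece.a)⁻¹ = φ (f₂ T₂.piece.a)⁻¹ * φ (f₂ T₂.piece.A) := by
      have h3 : Commute (f₂ T₂.piece.A) (f₂ T₂.piece.a) := by
        unfold Commute SemiconjBy
        rw [← map_mul, ← map_mul, T₂.piece.comm]
      rw [← map_mul, ← map_mul, h3.inv_right.eq]
    obtain ⟨c1, c2⟩ := core hN hq e1 e2 hu
    refine ⟨c1, fun h => ?_⟩
    have := c2 h
    rwa [map_inv, inv_inv] at this
  intro H _ hH f γ
  refine hom_trivial (f₂ T₂.piece.a) ?_ ?_ H hH f γ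
  · intro X _ φ x hx γ
    have hf := T₂.fa h₂ X (φ.comp f₂) x hx
    have hA : φ (f₂ T₂.piece.A) x = x := hf _
    have ha : φ (f₂ T₂.piece.a)⁻¹ x = x := by
      rw [map_inv, ← (φ (f₂ T₂.piece.a)).inj, self_inv]; exact hx.symm
    have hB := (core' X φ).1 x hA ha
    set K : Subgroup (ChainGrp (doubled T₁ w T₂)) := (Aut.stab x x).comap φ with hK
    have mem : ∀ {γ}, φ γ x = x → γ ∈ K := fun h => ⟨h, h⟩
    have k1 : (S T₁ w T₂ (w.length + 1)).1 ∈ K ∧ (S T₁ w T₂ (w.length + 1)).2 ∈ K :=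
      ⟨mem (by rw [b1]; exact hA), mem hB⟩
    have k2 : (S T₁ w T₂ (w.length + 2)).1 ∈ K ∧ (S T₁ w T₂ (w.length + 2)).2 ∈ K := by
      rw [b2]; exact ⟨k1.1, K.mul_mem k1.2 (mem ha)⟩
    have k3 : (S T₁ w T₂ 1).1 ∈ K ∧ (S T₁ w T₂ 1).2 ∈ K := by
      have := runw_mem K (inv w) _ k1.1 k1.2
      rwa [whole₁, runw_inv'] at this
    exact all_fixed h₁ h₂ φ x (fun j => ⟨(all_states K k3 k2 j).1.1, (all_states K k3 k2 j).2.1⟩) γ
  · intro X _ hX φ
    exact (core' X φ).2 hX

end Pool.Agent.K7.H38.KN
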