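import Mathlib

set_option autoImplicit false

/-!
# Positive words in two generators, and their suffixes

A state is a pair `(D, x)` of elements of a group. The positive steps are `(D, x) ↦ (D, x D)` (letter
`true`) and `(D, x) ↦ (D x, x)` (letter `false`).
-/

namespace Pool.Agent.K7.H38.KN

variable {G : Type*} [Group G]

/-- one positive step -/
def stp (b : Bool) (s : G × G) : G × G := if b then (s.1, s.2 * s.1) else (s.1 * s.2, s.2)

/-- a positive word; the first letter is applied first -/
def run : List Bool → G × G → G × G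
  | [], s => s
  | b :: l, s => run l (stp b s)

theorem run_nil (s : G × G) : run [] s = s := rfl
theorem run_true (l : List Bool) (D x : G) : run (true :: l) (D, x) = run l (D, x * D) := rfl
theorem run_false (l : List Bool) (D x : G) : run (false :: l) (D, x) = run l (D * x, x) := rfl

theorem run_map {H : Type*} [Group H] (φ : G →* H) : ∀ (l : List Bool) (D x : G),
    run l (φ D, φ x) = (φ (run l (D, x)).1, φ (run l (D, x)).2)
  | [], _, _ => rfl
  | true :: l, D, x => by rw [run_true, run_true, ← map_mul]; exact run_map φ l _ _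
  | false :: l, D, x => by rw [run_false, run_false, ← map_mul]; exact run_map φ l _ _

theorem run_mem (H : Subgroup G) : ∀ (l : List Bool) (D x : G),
    (run l (D, x)).1 ∈ H → (run l (D, x)).2 ∈ H → D ∈ H ∧ x ∈ H
  | [], _, _, h1, h2 => ⟨h1, h2⟩
  | true :: l, D, x, h1, h2 => by
    obtain ⟨h3, h4⟩ := run_mem H l _ _ h1 h2
    exact ⟨h3, (H.mul_mem_cancel_right h3).mp h4⟩
  | false :: l, D, x, h1, h2 => by
    obtain ⟨h3, h4⟩ := run_mem H l _ _ h1 h2
    exact ⟨(H.mul_mem_cancel_right h4).mp h3, h4⟩

/-- the monoid generated by `x` and `D⁻¹` -/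
def PM (x D : G) : Submonoid G := Submonoid.closure {x, D⁻¹}

theorem x_mem (x D : G) : x ∈ PM x D := Submonoid.subset_closure (Or.inl rfl)
theorem d_mem (x D : G) : D⁻¹ ∈ PM x D := Submonoid.subset_closure (Or.inr rfl)

theorem PM_true (x D : G) : PM x D ≤ PM (x * D) D := by
  refine Submonoid.closure_le.mpr ?_
  intro y hy
  rcases hy with h | h
  · have h1 := (PM (x * D) D).mul_mem (x_mem (x * D) D) (d_mem (x * D) D)
    rw [mul_inv_cancel_right] at h1
    rw [h]; exact h1
  · rw [Set.mem_singleton_iff] at h
    rw [h]; exact d_mem _ _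

theorem PM_false (x D : G) : PM x D ≤ PM x (D * x) := by
  refine Submonoid.closure_le.mpr ?_
  intro y hy
  rcases hy with h | h
  · rw [h]; exact x_mem _ _
  · have h1 := (PM x (D * x)).mul_mem (x_mem x (D * x)) (d_mem x (D * x))
    rw [mul_inv_rev, mul_inv_cancel_left] at h1
    rw [Set.mem_singleton_iff] at h
    rw [h]; exact h1

/-- products of `x` and `D⁻¹` that contain `x` -/
inductive PX (x D : G) : G → Prop
  | base (p : G) (hp : p ∈ PM x D) : PX x D (p * x)
  | mulx (f : G) (hf : PX x D f) : PX x D (f * x)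
  | muld (f : G) (hf : PX x D f) : PX x D (f * D⁻¹)

/-- products of `x` and `D⁻¹` that contain `D⁻¹` -/
inductive PD (x D : G) : G → Prop
  | base (q : G) (hq : q ∈ PM x D) : PD x D (D⁻¹ * q)
  | xmul (f : G) (hf : PD x D f) : PD x D (x * f)
  | dmul (f : G) (hf : PD x D f) : PD x D (D⁻¹ * f)

variable {x D f : G}

theorem PX.mem (h : PX x D f) : f ∈ PM x D := by
  induction h with
  | base p hp => exact (PM x D).mul_mem hp (x_mem _ _)
  | mulx f _ ih => exact (PM x D).mul_mem ih (x_mem _ _)
  | muld f _ ih => exact (PM x D).mul_mem ih (d_mem _ _)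

theorem PD.mem (h : PD x D f) : f ∈ PM x D := by
  induction h with
  | base p hp => exact (PM x D).mul_mem (d_mem _ _) hp
  | xmul f _ ih => exact (PM x D).mul_mem (x_mem _ _) ih
  | dmul f _ ih => exact (PM x D).mul_mem (d_mem _ _) ih

theorem PX.toTrue (h : PX x D f) : PX (x * D) D f := by
  induction h with
  | base p hp =>
    have := PX.muld _ (PX.base (x := x * D) (D := D) p (PM_true _ _ hp))
    rwa [← mul_assoc, mul_inv_cancel_right] at this
  | mulx f _ ih =>
    have := PX.muld _ (PX.mulx _ ih)
    rwa [← mul_assoc, mul_inv_cancel_right] at this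
  | muld f _ ih => exact PX.muld _ ih

theorem PX.mulD (h : PX x D f) : PX (x * D) D (f * D) := by
  cases h with
  | base p hp =>
    have := PX.base (x := x * D) (D := D) p (PM_true _ _ hp)
    rwa [← mul_assoc] at this
  | mulx f hf =>
    have := PX.mulx _ hf.toTrue
    rwa [← mul_assoc] at this
  | muld f hf =>
    rw [inv_mul_cancel_right]; exact hf.toTrue

theorem PX.toFalse (h : PX x D f) : PX x (D * x) f := by
  induction h with
  | base p hp => exact PX.base p (PM_false _ _ hp)
  | mulx f _ ih => exact PX.mulx _ ih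
  | muld f _ ih =>
    have := PX.muld _ (PX.mulx _ ih)
    rwa [mul_inv_rev, ← mul_assoc, mul_inv_cancel_right] at this

theorem PD.toTrue (h : PD x D f) : PD (x * D) D f := by
  induction h with
  | base q hq => exact PD.base q (PM_true _ _ hq)
  | xmul f _ ih =>
    have := PD.xmul _ (PD.dmul _ ih)
    rwa [mul_assoc, mul_inv_cancel_left] at this
  | dmul f _ ih => exact PD.dmul _ ih

theorem PD.toFalse (h : PD x D f) : PD x (D * x) f := by
  induction h with
  | base q hq =>
    have := PD.xmul _ (PD.base (x := x) (D := D * x) q (PM_false _ _ hq))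
    rwa [mul_inv_rev, mul_assoc, mul_inv_cancel_left] at this
  | xmul f _ ih => exact PD.xmul _ ih
  | dmul f _ ih =>
    have := PD.xmul _ (PD.dmul _ ih)
    rwa [mul_inv_rev, mul_assoc, mul_inv_cancel_left] at this

theorem PD.invx (h : PD x D f) : PD x (D * x) (x⁻¹ * f) := by
  cases h with
  | base q hq =>
    have := PD.base (x := x) (D := D * x) q (PM_false _ _ hq)
    rwa [mul_inv_rev, mul_assoc] at this
  | xmul f hf =>
    rw [inv_mul_cancel_left]; exact hf.toFalse
  | dmul f hf =>
    have := PD.dmul _ hf.toFalse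
    rwa [mul_inv_rev, mul_assoc] at this

end Pool.Agent.K7.H38.KN
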