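import Pool.Agent.Y479.LS.Aut
import Pool.Agent.K7.H38.KN.Words

set_option autoImplicit false

/-!
# Two copies of a positive word in a group of order automorphisms
-/

namespace Pool.Agent.K7.H38.KN

open Pool.Agent.Y479.LS Aut

section

variable {X : Type*} [LinearOrder X]

/-- If the second state is below the first one in the second component, and not above it in the first
component, after a positive word, then this was so before; strictly if the word contains `false`. -/
theorem back : ∀ (l : List Bool) (D x E y : Aut X),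
    (∀ z, (run l (E, y)).1 z ≤ (run l (D, x)).1 z) → (∀ z, (run l (D, x)).2 z < (run l (E, y)).2 z) →
    (∀ z, x z < y z) ∧ (∀ z, E z ≤ D z) ∧ (false ∈ l → ∀ z, E z < D z)
  | [], D, x, E, y, h1, h2 => ⟨h2, h1, fun h => absurd h List.not_mem_nil⟩
  | true :: l, D, x, E, y, h1, h2 => by
    obtain ⟨h3, h4, h5⟩ := back l D (x * D) E (y * E) h1 h2
    refine ⟨fun z => ?_, h4, fun h => h5 ?_⟩
    · have h6 := h3 (D⁻¹ z)
      rw [mul_apply, mul_apply, self_inv] at h6
      refine h6.trans_le ((y.le_iff).mpr ?_)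
      have h7 := h4 (D⁻¹ z)
      rwa [self_inv] at h7
    · rcases List.mem_cons.mp h with h | h
      · exact absurd h (by decide)
      · exact h
  | false :: l, D, x, E, y, h1, h2 => by
    obtain ⟨h3, h4, -⟩ := back l (D * x) x (E * y) y h1 h2
    have h5 : ∀ z, E z < D z := by
      intro z
      have h6 := h4 (y⁻¹ z)
      rw [mul_apply, mul_apply, self_inv] at h6
      refine h6.trans_lt ((D.lt_iff).mpr ?_)
      have h7 := h3 (y⁻¹ z)
      rwa [self_inv] at h7
    exact ⟨h3, fun z => (h5 z).le, fun _ => h5⟩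

/-- The invariant of two copies of a positive word: `S`, `T` are the proper suffixes of the words `x`,
`D` in `g`, `m`. -/
structure Inv (m : Aut X) (J : Set X) (D x E y : Aut X) (S T : Set (Aut X)) : Prop where
  cx : ∀ z, (∀ w ∈ S, w z ∈ J) → x z < y z
  cd : ∀ z, (∀ w ∈ T, w z ∈ J) → D z ≤ E z
  px : ∀ w ∈ S, PX x D (m⁻¹ * w)
  px' : ∀ w ∈ T, PX x D (m⁻¹ * w)
  pd : ∀ w ∈ S, PD x D (w⁻¹ * m⁻¹)
  pd' : ∀ w ∈ T, PD x D (w⁻¹ * m⁻¹)
  pm : PX x D m⁻¹

theorem Inv.toTrue {m : Aut X} {J : Set X} {D x E y : Aut X} {S T : Set (Aut X)}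
    (h : Inv m J D x E y S T) :
    Inv m J D (x * D) E (y * E) (T ∪ {w | ∃ s ∈ S, w = s * D}) T where
  cx z hz := by
    have h1 : D z ≤ E z := h.cd z fun w hw => hz w (Or.inl hw)
    have h2 : x (D z) < y (D z) := h.cx (D z) fun w hw => hz (w * D) (Or.inr ⟨w, hw, rfl⟩)
    exact h2.trans_le ((y.le_iff).mpr h1)
  cd := h.cd
  px w hw := by
    rcases hw with hw | ⟨s, hs, rfl⟩
    · exact (h.px' w hw).toTrue
    · rw [← mul_assoc]; exact (h.px s hs).mulD
  px' w hw := (h.px' w hw).toTrue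
  pd w hw := by
    rcases hw with hw | ⟨s, hs, rfl⟩
    · exact (h.pd' w hw).toTrue
    · rw [mul_inv_rev, mul_assoc]; exact PD.dmul _ (h.pd s hs).toTrue
  pd' w hw := (h.pd' w hw).toTrue
  pm := h.pm.toTrue

theorem Inv.toFalse {m : Aut X} {J : Set X} {D x E y : Aut X} {S T : Set (Aut X)}
    (h : Inv m J D x E y S T) :
    Inv m J (D * x) x (E * y) y S (S ∪ {w | ∃ t ∈ T, w = t * x}) where
  cx := h.cx
  cd z hz := by
    have h1 : x z < y z := h.cx z fun w hw => hz w (Or.inl hw)
    have h2 : D (x z) ≤ E (x z) := h.cd (x z) fun w hw => hz (w * x) (Or.inr ⟨w, hw, rfl⟩)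
    exact h2.trans ((E.le_iff).mpr h1.le)
  px w hw := (h.px w hw).toFalse
  px' w hw := by
    rcases hw with hw | ⟨s, hs, rfl⟩
    · exact (h.px w hw).toFalse
    · rw [← mul_assoc]; exact PX.mulx _ (h.px' s hs).toFalse
  pd w hw := (h.pd w hw).toFalse
  pd' w hw := by
    rcases hw with hw | ⟨s, hs, rfl⟩
    · exact (h.pd w hw).toFalse
    · rw [mul_inv_rev, mul_assoc]; exact (h.pd' s hs).invx
  pm := h.pm.toFalse

theorem Inv.run_inv {m : Aut X} {J : Set X} : ∀ (l : List Bool) {D x E y : Aut X}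
    {S T : Set (Aut X)}, Inv m J D x E y S T →
    ∃ S' T', Inv m J (run l (D, x)).1 (run l (D, x)).2 (run l (E, y)).1 (run l (E, y)).2 S' T'
  | [], _, _, _, _, _, _, h => ⟨_, _, h⟩
  | true :: l, _, _, _, _, _, _, h => Inv.run_inv l h.toTrue
  | false :: l, _, _, _, _, _, _, h => Inv.run_inv l h.toFalse

/-- The invariant after the first letter `false`. -/
theorem Inv.start {m g h : Aut X} {J : Set X} (hJ : ∀ z ∈ J, g z < h z) :
    Inv m J (m * g) g (m * h) h {1} {1, g} where
  cx z hz := hJ z (hz 1 rfl)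
  cd z hz := (m.le_iff).mpr (hJ z (hz 1 (Or.inl rfl))).le
  px w hw := by
    rw [Set.mem_singleton_iff] at hw
    have h1 := PX.muld _ (PX.base (x := g) (D := m * g) 1 (PM _ _).one_mem)
    rwa [one_mul, mul_inv_rev, mul_inv_cancel_left, ← mul_one m⁻¹, ← hw] at h1
  px' w hw := by
    have h1 := PX.muld _ (PX.base (x := g) (D := m * g) 1 (PM _ _).one_mem)
    rw [one_mul, mul_inv_rev, mul_inv_cancel_left] at h1
    rcases hw with hw | hw
    · rw [hw, mul_one]; exact h1
    · rw [Set.mem_singleton_iff] at hw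
      rw [hw]; exact PX.mulx _ h1
  pd w hw := by
    rw [Set.mem_singleton_iff] at hw
    have h1 := PD.xmul _ (PD.base (x := g) (D := m * g) 1 (PM _ _).one_mem)
    rw [mul_one, mul_inv_rev, mul_inv_cancel_left] at h1
    rw [hw, inv_one, one_mul]; exact h1
  pd' w hw := by
    rcases hw with hw | hw
    · have h1 := PD.xmul _ (PD.base (x := g) (D := m * g) 1 (PM _ _).one_mem)
      rw [mul_one, mul_inv_rev, mul_inv_cancel_left] at h1
      rw [hw, inv_one, one_mul]; exact h1
    · rw [Set.mem_singleton_iff] at hw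
      have h1 := PD.base (x := g) (D := m * g) 1 (PM _ _).one_mem
      rw [mul_one, mul_inv_rev] at h1
      rw [hw]; exact h1
  pm := by
    have h1 := PX.muld _ (PX.base (x := g) (D := m * g) 1 (PM _ _).one_mem)
    rwa [one_mul, mul_inv_rev, mul_inv_cancel_left] at h1

/-- Elements of the monoid generated by `a` and `l⁻¹` move `z₀` up, if `a` moves it up and `l` fixes
it. -/
theorem PM.up {a l : Aut X} {z₀ : X} (ha : z₀ < a z₀) (hl : l z₀ = z₀) {p : Aut X}
    (hp : p ∈ PM a l) : z₀ ≤ p z₀ := by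
  have key : ∀ z, z₀ ≤ z → z₀ ≤ p z := by
    induction hp using Submonoid.closure_induction with
    | mem y hy =>
      intro z hz
      rcases hy with rfl | hy
      · exact ha.le.trans ((y.le_iff).mpr hz)
      · rw [Set.mem_singleton_iff] at hy
        rw [hy, ← l.le_iff, self_inv, hl]; exact hz
    | one => intro z hz; exact hz
    | mul y w _ _ h1 h2 => intro z hz; exact h1 _ (h2 z hz)
  exact key z₀ le_rfl

theorem PM.up_lt {a l : Aut X} {z₀ : X} (ha : z₀ < a z₀) (hl : l z₀ = z₀) {p : Aut X}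
    (hp : p ∈ PM a l) : ∀ z, z₀ < z → z₀ < p z := by
  induction hp using Submonoid.closure_induction with
  | mem y hy =>
    intro z hz
    rcases hy with rfl | hy
    · exact ha.trans ((y.lt_iff).mpr hz)
    · rw [Set.mem_singleton_iff] at hy
      rw [hy, ← l.lt_iff, self_inv, hl]; exact hz
  | one => intro z hz; exact hz
  | mul y w _ _ h1 h2 => intro z hz; exact h1 _ (h2 z hz)

theorem PX.up_lt {a l : Aut X} {z₀ : X} (ha : z₀ < a z₀) (hl : l z₀ = z₀) {p : Aut X}
    (hp : PX a l p) : z₀ < p z₀ := by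
  induction hp with
  | base p hp => rw [mul_apply]; exact PM.up_lt ha hl hp _ ha
  | mulx f _ ih => rw [mul_apply]; exact ih.trans ((f.lt_iff).mpr ha)
  | muld f _ ih =>
    rw [mul_apply]
    have : l⁻¹ z₀ = z₀ := by rw [← l.inj, self_inv, hl]
    rw [this]; exact ih

/-- The main comparison: `h` is above `g` between `m z₀` and `m⁻¹ z₀`, the first components `l`, `l'` of
the final states fix `z₀`, and the second components agree at `z₀`. Then they do not move `z₀` up. -/
theorem compare {l : List Bool} {m g h : Aut X} {z₀ : X}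
    (hJ : z₀ < m⁻¹ z₀ → ∀ z, m z₀ ≤ z → z ≤ m⁻¹ z₀ → g z < h z)
    (h1 : (run (false :: l) (m, g)).1 z₀ = z₀)
    (h2 : (run (false :: l) (m, g)).2 z₀ = (run (false :: l) (m, h)).2 z₀) :
    ¬ z₀ < (run (false :: l) (m, g)).2 z₀ := by
  intro hup
  set J : Set X := {z | z₀ < m⁻¹ z₀ ∧ m z₀ ≤ z ∧ z ≤ m⁻¹ z₀} with hJdef
  have h0 : Inv m J (m * g) g (m * h) h {1} {1, g} :=
    Inv.start fun z hz => hJ hz.1 z hz.2.1 hz.2.2
  obtain ⟨S, T, hI⟩ := Inv.run_inv l h0
  have hpm : z₀ < m⁻¹ z₀ := PX.up_lt hup h1 hI.pm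
  have := hI.cx z₀ fun w hw => by
    refine ⟨hpm, ?_, ?_⟩
    · have h3 := PX.up_lt hup h1 (hI.px w hw)
      rw [mul_apply, ← m.lt_iff, self_inv] at h3
      exact h3.le
    · have h3 := PM.up hup h1 (hI.pd w hw).mem
      rw [mul_apply, ← w.le_iff, self_inv] at h3
      exact h3
  exact this.ne h2

end

end Pool.Agent.K7.H38.KN
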