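import Pool.Agent.K7.H38.KN.PPub
import Pool.Agent.K7.H38.KN.Free

set_option autoImplicit false

/-!
# The states of a closed chain of pieces
-/

namespace Pool.Agent.K7.H38.KN

open Pool.Agent.Y479.LS Aut Pool.Agent.K7.H39.TB Pool.Agent.W705.Borr

section states

variable {l : List (Bool × Piece)} (hn : 0 < l.length)

/-- the index `j` modulo the length -/
def pix (j : ℕ) : Fin l.length := ⟨j % l.length, Nat.mod_lt _ hn⟩

theorem nx_pix (j : ℕ) : nx (pix hn j) = pix hn (j + 1) := Fin.ext (by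
  simp only [pix, nx]; rw [Nat.mod_add_mod])

theorem pix_of_lt {j : ℕ} (h : j < l.length) : pix hn j = ⟨j, h⟩ := Fin.ext (Nat.mod_eq_of_lt h)

theorem pix_val (i : Fin l.length) : pix hn i.1 = i := pix_of_lt hn i.2

theorem pix_length : pix hn l.length = pix hn 0 := Fin.ext (by simp [pix])

/-- the state before the letter `j` -/
def pst (j : ℕ) : PChainGrp l × PChainGrp l := (Glued.A (pix hn j), Glued.B (pix hn j))

theorem pst_length : pst hn l.length = pst hn 0 := by
  unfold pst; rw [pix_length]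

theorem pstep_general (i : Fin l.length) (x : Bool × Piece) (hx : l.get i = x) :
    ∃ f : x.2.P →* PChainGrp l,
      (x.1 = true → (Glued.A i : PChainGrp l) = f x.2.A ∧
        (Glued.A (nx i) : PChainGrp l) = Glued.A i ∧
        (Glued.B (nx i) : PChainGrp l) = Glued.B i * (f x.2.a)⁻¹) ∧
      (x.1 = false → (Glued.B i : PChainGrp l) = f x.2.A ∧
        (Glued.B (nx i) : PChainGrp l) = Glued.B i ∧
        (Glued.A (nx i) : PChainGrp l) = Glued.A i * f x.2.a) := by
  subst hx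
  refine ⟨Glued.inc (M := fun i : Fin l.length => (l.get i).2)
    (κ := fun i => (l.get i).1) i, fun h => ?_, fun h => ?_⟩
  · exact Glued.relA (M := fun i : Fin l.length => (l.get i).2)
      (κ := fun i => (l.get i).1) i h
  · exact Glued.relB (M := fun i : Fin l.length => (l.get i).2)
      (κ := fun i => (l.get i).1) i h

theorem pget_mid (pre post : List (Bool × Piece)) (x : Bool × Piece)
    (hl : l = pre ++ x :: post) : l.get (pix hn pre.length) = x := by
  subst hl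
  rw [pix_of_lt hn (by simp)]
  simp

theorem pstep_pow (pre post : List (Bool × Piece)) (x : Bool × ℤ)
    (hl : l = pre ++ ppow x :: post) :
    pst hn (pre.length + 1) = runw [x] (pst hn pre.length) := by
  obtain ⟨f, h1, h2⟩ := pstep_general (pix hn pre.length) (ppow x) (pget_mid hn pre post _ hl)
  obtain ⟨k, n⟩ := x
  have e : f (Multiplicative.ofAdd n) = f (Multiplicative.ofAdd (1 : ℤ)) ^ n := hom_ofAdd f n
  cases k
  · obtain ⟨h3, h4, h5⟩ := h2 rfl
    rw [nx_pix] at h4 h5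
    change (Glued.A _, Glued.B _) = ((Glued.A _ : PChainGrp l) * (Glued.B _) ^ n, Glued.B _)
    rw [h4, h5, h3]
    change (_ * f (Multiplicative.ofAdd n), _) = (_ * f (Multiplicative.ofAdd (1 : ℤ)) ^ n, _)
    rw [e]
  · obtain ⟨h3, h4, h5⟩ := h1 rfl
    rw [nx_pix] at h4 h5
    change (Glued.A _, Glued.B _) = (Glued.A _, (Glued.B _ : PChainGrp l) * ((Glued.A _) ^ n)⁻¹)
    rw [h4, h5, h3]
    change (_, _ * (f (Multiplicative.ofAdd n))⁻¹) =
      (_, _ * (f (Multiplicative.ofAdd (1 : ℤ)) ^ n)⁻¹)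
    rw [e]

theorem pseg : ∀ (w : List (Bool × ℤ)) (pre post : List (Bool × Piece)),
    l = pre ++ (w.map ppow ++ post) → pst hn (pre.length + w.length) = runw w (pst hn pre.length)
  | [], _, _, _ => rfl
  | x :: w, pre, post, hl => by
    have h1 := pstep_pow hn pre (w.map ppow ++ post) x hl
    have h2 := pseg w (pre ++ [ppow x]) post (by rw [hl]; simp)
    rw [List.length_append, List.length_singleton] at h2
    have h3 : pre.length + (x :: w).length = pre.length + 1 + w.length := by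
      rw [List.length_cons]; omega
    rw [h3, h2, h1]
    obtain ⟨k, n⟩ := x
    cases k <;> rfl

end states

variable {M₁ M₂ : Piece} {w : List (Bool × ℤ)}

theorem phn : 0 < (pdoubled M₁ w M₂).length := by rw [plen]; omega

/-- the states of the chain -/
abbrev PS (M₁ : Piece) (w : List (Bool × ℤ)) (M₂ : Piece) (j : ℕ) :
    PChainGrp (pdoubled M₁ w M₂) × PChainGrp (pdoubled M₁ w M₂) := pst phn j

theorem pfirst : ∃ f : M₁.P →* PChainGrp (pdoubled M₁ w M₂),
    (PS M₁ w M₂ 0).1 = f M₁.A ∧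
    PS M₁ w M₂ 1 = ((PS M₁ w M₂ 0).1, (PS M₁ w M₂ 0).2 * (f M₁.a)⁻¹) := by
  obtain ⟨f, h, -⟩ := pstep_general (pix phn 0) (true, M₁)
    (pget_mid phn [] (w.map ppow ++ (true, M₂) :: (inv w).map ppow) (true, M₁) rfl)
  obtain ⟨h1, h2, h3⟩ := h rfl
  rw [nx_pix] at h2 h3
  exact ⟨f, h1, Prod.ext h2 h3⟩

theorem psecond : ∃ f : M₂.P →* PChainGrp (pdoubled M₁ w M₂),
    (PS M₁ w M₂ (w.length + 1)).1 = f M₂.A ∧
    PS M₁ w M₂ (w.length + 2) = ((PS M₁ w M₂ (w.length + 1)).1,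
      (PS M₁ w M₂ (w.length + 1)).2 * (f M₂.a)⁻¹) := by
  have hlen : ((true, M₁) :: w.map ppow).length = w.length + 1 := by simp
  have hg := pget_mid (l := pdoubled M₁ w M₂) phn ((true, M₁) :: w.map ppow) ((inv w).map ppow)
    (true, M₂) rfl
  rw [hlen] at hg
  obtain ⟨f, h, -⟩ := pstep_general (pix phn (w.length + 1)) (true, M₂) hg
  obtain ⟨h1, h2, h3⟩ := h rfl
  rw [nx_pix] at h2 h3
  exact ⟨f, h1, Prod.ext h2 h3⟩

theorem pseg₁ (k : ℕ) (hk : k ≤ w.length) :
    PS M₁ w M₂ (1 + k) = runw (w.take k) (PS M₁ w M₂ 1) := by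
  have h := pseg (l := pdoubled M₁ w M₂) phn (w.take k) [(true, M₁)]
    ((w.drop k).map ppow ++ (true, M₂) :: (inv w).map ppow) (by
      have e : w.map ppow = (w.take k).map ppow ++ (w.drop k).map ppow := by
        rw [← List.map_append, List.take_append_drop]
      unfold pdoubled
      rw [e, List.append_assoc, List.singleton_append])
  rw [List.length_take, min_eq_left hk, List.length_singleton] at h
  exact h

theorem pseg₂ (k : ℕ) (hk : k ≤ w.length) :
    PS M₁ w M₂ (w.length + 2 + k) = runw ((inv w).take k) (PS M₁ w M₂ (w.length + 2)) := by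
  have hlen : ((true, M₁) :: (w.map ppow ++ [(true, M₂)])).length = w.length + 2 := by simp
  have h := pseg (l := pdoubled M₁ w M₂) phn ((inv w).take k)
    ((true, M₁) :: (w.map ppow ++ [(true, M₂)])) (((inv w).drop k).map ppow) (by
      rw [← List.map_append, List.take_append_drop]
      simp [pdoubled])
  have hl : (inv w).length = w.length := by simp [inv]
  rw [List.length_take, hl, min_eq_left hk, hlen] at h
  exact h

theorem pwhole₁ : PS M₁ w M₂ (w.length + 1) = runw w (PS M₁ w M₂ 1) := by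
  have h := pseg₁ (M₁ := M₁) (M₂ := M₂) w.length le_rfl
  rwa [List.take_length, add_comm] at h

theorem pwhole₂ : PS M₁ w M₂ 0 = runw (inv w) (PS M₁ w M₂ (w.length + 2)) := by
  have h := pseg₂ (M₁ := M₁) (M₂ := M₂) w.length le_rfl
  have hl : (inv w).length = w.length := by simp [inv]
  rw [← hl, List.take_length, hl] at h
  rw [← h]
  have h1 := pst_length (l := pdoubled M₁ w M₂) phn
  rw [plen] at h1
  have h2 : w.length + 2 + w.length = 2 * w.length + 2 := by ring
  rw [h2]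
  exact h1.symm

theorem pall_states (H : Subgroup (PChainGrp (pdoubled M₁ w M₂)))
    (h1 : (PS M₁ w M₂ 1).1 ∈ H ∧ (PS M₁ w M₂ 1).2 ∈ H)
    (h2 : (PS M₁ w M₂ (w.length + 2)).1 ∈ H ∧ (PS M₁ w M₂ (w.length + 2)).2 ∈ H) (j : ℕ) :
    (PS M₁ w M₂ j).1 ∈ H ∧ (PS M₁ w M₂ j).2 ∈ H := by
  have key : ∀ j, j < 2 * w.length + 2 → (PS M₁ w M₂ j).1 ∈ H ∧ (PS M₁ w M₂ j).2 ∈ H := by
    intro j hj
    rcases Nat.eq_zero_or_pos j with rfl | h0
    · rw [pwhole₂]
      exact runw_mem H _ _ h2.1 h2.2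
    · rcases le_or_gt j (w.length + 1) with h3 | h3
      · obtain ⟨k, rfl⟩ := Nat.exists_eq_add_of_le (show 1 ≤ j from h0)
        rw [pseg₁ k (by omega)]
        exact runw_mem H _ _ h1.1 h1.2
      · obtain ⟨k, rfl⟩ := Nat.exists_eq_add_of_le (show w.length + 2 ≤ j from h3)
        rw [pseg₂ k (by omega)]
        exact runw_mem H _ _ h2.1 h2.2
  have h3 : PS M₁ w M₂ j = PS M₁ w M₂ (j % (pdoubled M₁ w M₂).length) := by
    have : pix (l := pdoubled M₁ w M₂) phn j = pix phn (j % (pdoubled M₁ w M₂).length) :=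
      Fin.ext (by simp [pix])
    change (Glued.A (pix phn j), Glued.B (pix phn j)) = (Glued.A (pix phn _), Glued.B (pix phn _))
    rw [this]
  rw [h3]
  refine key _ ?_
  rw [← plen (M₁ := M₁) (M₂ := M₂)]
  exact Nat.mod_lt _ phn

/-- The common fixed points of `A` and `a` are fixed points of the piece, for the order `X`. -/
def FbX (X : Type) [LinearOrder X] (M : Piece) : Prop :=
  ∀ (φ : M.P →* Aut X) (x : X), φ M.A x = x → φ M.a x = x → ∀ g, φ g x = x

theorem ppieces_fb {X : Type} [LinearOrder X] (h₁ : FbX X M₁) (h₂ : FbX X M₂) :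
    ∀ y ∈ pdoubled M₁ w M₂, FbX X y.2 := by
  intro y hy
  have hp : ∀ x : Bool × ℤ, FbX X (ppow x).2 := fun x φ x' h _ g => fb_pow x X φ x' h (by
    exact gen_fix φ h _) g
  rcases List.mem_cons.mp hy with rfl | hy
  · exact h₁
  · rcases List.mem_append.mp hy with hy | hy
    · obtain ⟨x, -, rfl⟩ := List.mem_map.mp hy
      exact hp x
    · rcases List.mem_cons.mp hy with rfl | hy
      · exact h₂
      · obtain ⟨x, -, rfl⟩ := List.mem_map.mp hy
        exact hp x

/-- If all states fix a point then the whole group does. -/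
theorem pall_fixed {X : Type} [LinearOrder X] (h₁ : FbX X M₁) (h₂ : FbX X M₂)
    (φ : PChainGrp (pdoubled M₁ w M₂) →* Aut X) (x : X)
    (hx : ∀ j, φ (PS M₁ w M₂ j).1 x = x ∧ φ (PS M₁ w M₂ j).2 x = x)
    (γ : PChainGrp (pdoubled M₁ w M₂)) : φ γ x = x := by
  have hA : ∀ i : Fin (pdoubled M₁ w M₂).length, φ (Glued.A i) x = x := by
    intro i
    have := (hx i.1).1
    change φ (Glued.A (pix phn i.1)) x = x at this
    rwa [pix_val] at this
  have hB : ∀ i : Fin (pdoubled M₁ w M₂).length, φ (Glued.B i) x = x := by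
    intro i
    have := (hx i.1).2
    change φ (Glued.B (pix phn i.1)) x = x at this
    rwa [pix_val] at this
  have hmem : γ ∈ Subgroup.closure (Set.range (PresentedGroup.of
      (rels := Glued.relators (fun i : Fin (pdoubled M₁ w M₂).length =>
        ((pdoubled M₁ w M₂).get i).2) (fun i => ((pdoubled M₁ w M₂).get i).1)))) := by
    rw [PresentedGroup.closure_range_of]; trivial
  induction hmem using Subgroup.closure_induction with
  | mem y hy =>
    obtain ⟨(i | i) | ⟨i, g⟩, rfl⟩ := hy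
    · exact hA i
    · exact hB i
    · have hf := ppieces_fb (w := w) h₁ h₂ _ (List.get_mem (pdoubled M₁ w M₂) i)
      refine hf (φ.comp (Glued.inc (M := fun i : Fin (pdoubled M₁ w M₂).length =>
        ((pdoubled M₁ w M₂).get i).2) (κ := fun i => ((pdoubled M₁ w M₂).get i).1) i)) x ?_ ?_ g
      · cases hk : ((pdoubled M₁ w M₂).get i).1
        · obtain ⟨h1, -⟩ := Glued.relB (M := fun i : Fin (pdoubled M₁ w M₂).length =>
            ((pdoubled M₁ w M₂).get i).2) (κ := fun i => ((pdoubled M₁ w M₂).get i).1) i hk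
          rw [MonoidHom.comp_apply, ← h1]; exact hB i
        · obtain ⟨h1, -⟩ := Glued.relA (M := fun i : Fin (pdoubled M₁ w M₂).length =>
            ((pdoubled M₁ w M₂).get i).2) (κ := fun i => ((pdoubled M₁ w M₂).get i).1) i hk
          rw [MonoidHom.comp_apply, ← h1]; exact hA i
      · cases hk : ((pdoubled M₁ w M₂).get i).1
        · obtain ⟨-, -, h1⟩ := Glued.relB (M := fun i : Fin (pdoubled M₁ w M₂).length =>
            ((pdoubled M₁ w M₂).get i).2) (κ := fun i => ((pdoubled M₁ w M₂).get i).1) i hk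
          have h2 := hA (nx i)
          rw [h1, map_mul, mul_apply] at h2
          rw [MonoidHom.comp_apply, ← (φ (Glued.A i)).inj, h2, hA i]
        · obtain ⟨-, -, h1⟩ := Glued.relA (M := fun i : Fin (pdoubled M₁ w M₂).length =>
            ((pdoubled M₁ w M₂).get i).2) (κ := fun i => ((pdoubled M₁ w M₂).get i).1) i hk
          have h2 := hB (nx i)
          rw [h1, map_mul, mul_apply, map_inv] at h2
          have h3 : (φ (Glued.inc i ((pdoubled M₁ w M₂).get i).2.a))⁻¹ x = x := by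
            rw [← (φ (Glued.B i)).inj, h2, hB i]
          rw [MonoidHom.comp_apply]
          rw [← (φ (Glued.inc i ((pdoubled M₁ w M₂).get i).2.a))⁻¹.inj, inv_self, h3]
  | one => rw [map_one, Aut.one_apply]
  | mul y z _ _ h5 h6 => rw [map_mul, Aut.mul_apply, h6, h5]
  | inv y _ h5 => rw [map_inv, ← Aut.inj (φ y), Aut.self_inv, h5]

/-- Fixed points of `a` are global, in complete linear orders. -/
def Fc (M : Piece) : Prop :=
  ∀ (X : Type) [CompleteLinearOrder X] (φ : M.P →* Aut X) (x : X), φ M.a x = x → ∀ g, φ g x = x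

theorem Fc.fb {M : Piece} (h : Fc M) (X : Type) [CompleteLinearOrder X] : FbX X M :=
  fun φ x _ ha g => h X φ x ha g

theorem STang.fc (T : STang) (h : T.Proper) : Fc T.piece := fun X _ φ x hx g => T.fa h X φ x hx g

section core

variable (M₁ M₂ w)

/-- The properties of the second piece in a closed chain: for an action on a complete linear order,
a common fixed point of `A` and `a` (of the second piece) is fixed by all regions; in no action `a`
moves all points up. -/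
theorem pcore (hN : cross w ≠ 0) (h₁ : Fc M₁) :
    ∃ f₂ : M₂.P →* PChainGrp (pdoubled M₁ w M₂),
      (PS M₁ w M₂ (w.length + 1)).1 = f₂ M₂.A ∧
      PS M₁ w M₂ (w.length + 2) = ((PS M₁ w M₂ (w.length + 1)).1,
        (PS M₁ w M₂ (w.length + 1)).2 * (f₂ M₂.a)⁻¹) ∧
      (∀ (X : Type) [CompleteLinearOrder X] (φ : PChainGrp (pdoubled M₁ w M₂) →* Aut X) (x : X),
        φ (f₂ M₂.A) x = x → φ (f₂ M₂.a) x = x →
          ∀ j, φ (PS M₁ w M₂ j).1 x = x ∧ φ (PS M₁ w M₂ j).2 x = x) ∧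
      (∀ (X : Type) [LinearOrder X] [Nonempty X] (φ : PChainGrp (pdoubled M₁ w M₂) →* Aut X),
        ¬ ∀ z, z < φ (f₂ M₂.a) z) := by
  obtain ⟨f₁, a1, a2⟩ := pfirst (M₁ := M₁) (M₂ := M₂) (w := w)
  obtain ⟨f₂, b1, b2⟩ := psecond (M₁ := M₁) (M₂ := M₂) (w := w)
  have prep : ∀ (X : Type) [LinearOrder X] (φ : PChainGrp (pdoubled M₁ w M₂) →* Aut X),
      Ty (φ (f₁ M₁.A)) (φ (f₁ M₁.a)) (φ (PS M₁ w M₂ 1).1, φ (PS M₁ w M₂ 1).2)
        (φ (PS M₁ w M₂ 0).1, φ (PS M₁ w M₂ 0).2) ∧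
      runw w (φ (PS M₁ w M₂ 1).1, φ (PS M₁ w M₂ 1).2) =
        (φ (f₂ M₂.A), φ (PS M₁ w M₂ (w.length + 1)).2) ∧
      runw w (φ (PS M₁ w M₂ 0).1, φ (PS M₁ w M₂ 0).2) =
        (φ (f₂ M₂.A), φ (PS M₁ w M₂ (w.length + 1)).2 * φ (f₂ M₂.a)⁻¹) ∧
      φ (f₂ M₂.A) * φ (f₂ M₂.a)⁻¹ = φ (f₂ M₂.a)⁻¹ * φ (f₂ M₂.A) := by
    intro X _ φ
    refine ⟨⟨φ (PS M₁ w M₂ 1).2, ?_, ?_, ?_⟩, ?_, ?_, ?_⟩
    · rw [a2]
      change (φ (PS M₁ w M₂ 0).1, _) = _
      rw [a1]
    · rw [a2]
      change _ = (_, φ ((PS M₁ w M₂ 0).2 * (f₁ M₁.a)⁻¹) * _)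
      rw [a1, ← map_mul, inv_mul_cancel_right]
    · rw [← map_mul, ← map_mul, ← map_mul, ← map_mul, M₁.comm]
    · rw [runw_map φ w (PS M₁ w M₂ 1), ← pwhole₁, b1]
    · rw [runw_map φ w (PS M₁ w M₂ 0), pwhole₂, runw_inv, b2, ← map_mul]
      change (φ (PS M₁ w M₂ (w.length + 1)).1, _) = _
      rw [b1]
    · have h3 : Commute (f₂ M₂.A) (f₂ M₂.a) := by
        unfold Commute SemiconjBy
        rw [← map_mul, ← map_mul, M₂.comm]
      rw [← map_mul, ← map_mul, h3.inv_right.eq]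
  refine ⟨f₂, b1, b2, ?_, ?_⟩
  · intro X _ φ x hA ha'
    obtain ⟨ht, e1, e2, hu⟩ := prep X φ
    have ha : φ (f₂ M₂.a)⁻¹ x = x := by rw [map_inv, inv_fix_iff]; exact ha'
    have hvc : VC (φ (f₁ M₁.A)) (φ (f₁ M₁.a)) := fun z hz => h₁ X (φ.comp f₁) z hz M₁.A
    have hB := core_fix hN ht hvc e1 e2 hu x hA ha
    set K : Subgroup (PChainGrp (pdoubled M₁ w M₂)) := (Aut.stab x x).comap φ with hK
    have mem : ∀ {γ}, φ γ x = x → γ ∈ K := fun h => ⟨h, h⟩
    have k1 : (PS M₁ w M₂ (w.length + 1)).1 ∈ K ∧ (PS M₁ w M₂ (w.length + 1)).2 ∈ K :=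
      ⟨mem (by rw [b1]; exact hA), mem hB⟩
    have k2 : (PS M₁ w M₂ (w.length + 2)).1 ∈ K ∧ (PS M₁ w M₂ (w.length + 2)).2 ∈ K := by
      rw [b2]; exact ⟨k1.1, K.mul_mem k1.2 (mem ha)⟩
    have k3 : (PS M₁ w M₂ 1).1 ∈ K ∧ (PS M₁ w M₂ 1).2 ∈ K := by
      have := runw_mem K (inv w) _ k1.1 k1.2
      rwa [pwhole₁, runw_inv'] at this
    exact fun j => ⟨(pall_states K k3 k2 j).1.1, (pall_states K k3 k2 j).2.1⟩
  · intro X _ _ φ hz
    obtain ⟨ht, e1, e2, hu⟩ := prep X φ
    refine core_up hN ht e1 e2 hu fun z => ?_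
    rw [map_inv, inv_inv]
    exact hz z

end core

/-- **Closed chains of two pieces.** -/
theorem pclosed {M₁ M₂ : Piece} {w : List (Bool × ℤ)} (hN : cross w ≠ 0) (h₁ : Fc M₁) (h₂ : Fc M₂) :
    NoLO (PChainGrp (pdoubled M₁ w M₂)) := by
  obtain ⟨f₂, -, -, c1, c2⟩ := pcore M₁ M₂ w hN h₁
  intro H _ hH f γ
  refine hom_trivial (f₂ M₂.a) ?_ ?_ H hH f γ
  · refine to_complete _ ?_
    intro X _ φ x hx γ
    have hf := h₂ X (φ.comp f₂) x hx
    exact pall_fixed (h₁.fb X) (h₂.fb X) φ x (c1 X φ x (hf _) hx) γ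
  · intro X _ _ φ
    exact c2 X φ

/-! ### the piece with a hole -/

theorem hole_fix {X : Type} [LinearOrder X] (φ : Multiplicative (ℤ × ℤ) →* Aut X) {x : X}
    (hA : φ (Multiplicative.ofAdd (1, 0)) x = x) (ha : φ (Multiplicative.ofAdd (0, 1)) x = x)
    (g : Multiplicative (ℤ × ℤ)) : φ g x = x := by
  have e : g = (Multiplicative.ofAdd ((1, 0) : ℤ × ℤ)) ^ (Multiplicative.toAdd g).1 *
      (Multiplicative.ofAdd ((0, 1) : ℤ × ℤ)) ^ (Multiplicative.toAdd g).2 := by
    rw [← ofAdd_zsmul, ← ofAdd_zsmul, ← ofAdd_add]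
    apply Multiplicative.toAdd.injective
    simp
  rw [e, map_mul, map_zpow, map_zpow, mul_apply, zpow_fix _ ha, zpow_fix _ hA]

theorem hole_fb (X : Type) [LinearOrder X] : FbX X hole := fun φ _ hA ha g => hole_fix φ hA ha g

theorem sup_fix {X : Type} [CompleteLinearOrder X] (G : Aut X) (S : Set X)
    (h : ∀ f ∈ S, G f = f) : G (sSup S) = sSup S := by
  apply le_antisymm
  · refine le_trans (le_of_eq ((G : X ≃o X).map_sSup S)) (iSup₂_le fun v hv => ?_)
    exact le_trans (le_of_eq (h v hv)) (le_sSup hv)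
  · refine sSup_le fun v hv => ?_
    rw [← h v hv]
    exact (G.le_iff).mpr (le_sSup hv)

theorem inf_fix {X : Type} [CompleteLinearOrder X] (G : Aut X) (S : Set X)
    (h : ∀ f ∈ S, G f = f) : G (sInf S) = sInf S := by
  apply le_antisymm
  · refine le_sInf fun v hv => ?_
    rw [← h v hv]
    exact (G.le_iff).mpr (sInf_le hv)
  · refine le_trans (le_iInf₂ fun v hv => ?_) (le_of_eq ((G : X ≃o X).map_sInf S).symm)
    exact le_trans (sInf_le hv) (le_of_eq (h v hv).symm)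

/-- If common fixed points of `A` and `a` are global, and `a` never moves all points up, then the fixed
points of `A ^ z * a ^ t`, `z ≠ 0`, are global. -/
theorem free_of {Γ : Type} [Group Γ] (A a : Γ) (hc : A * a = a * A)
    (h1 : ∀ (X : Type) [CompleteLinearOrder X] (φ : Γ →* Aut X) (x : X), φ A x = x → φ a x = x →
      ∀ γ, φ γ x = x)
    (h2 : ∀ (X : Type) [LinearOrder X] [Nonempty X] (φ : Γ →* Aut X), ¬ ∀ z, z < φ a z)
    (z t : ℤ) (hz : z ≠ 0) (X : Type) [CompleteLinearOrder X] (φ : Γ →* Aut X) (x : X)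
    (hx : φ (A ^ z * a ^ t) x = x) (γ : Γ) : φ γ x = x := by
  by_cases hnc : φ A x = x ∧ φ a x = x
  · exact h1 X φ x hnc.1 hnc.2 γ
  exfalso
  set l := φ A with hl
  set b := φ a with hb
  have hlb : Commute l b := by
    unfold Commute SemiconjBy
    rw [hl, hb, ← map_mul, hc, map_mul]
  have hx' : (l ^ z * b ^ t) x = x := by
    rw [hl, hb, ← map_zpow, ← map_zpow, ← map_mul]; exact hx
  set A' : Set X := {f | f ≤ x ∧ l f = f ∧ b f = f} with hA'
  set B' : Set X := {f | x ≤ f ∧ l f = f ∧ b f = f} with hB'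
  set α := sSup A' with hα
  set β := sInf B' with hβ
  have lα : l α = α := sup_fix l A' fun f hf => hf.2.1
  have bα : b α = α := sup_fix b A' fun f hf => hf.2.2
  have lβ : l β = β := inf_fix l B' fun f hf => hf.2.1
  have bβ : b β = β := inf_fix b B' fun f hf => hf.2.2
  have hαx : α < x := by
    refine lt_of_le_of_ne (sSup_le fun f hf => hf.1) ?_
    intro e; rw [e] at lα bα; exact hnc ⟨lα, bα⟩
  have hxβ : x < β := by
    refine lt_of_le_of_ne (le_sInf fun f hf => hf.1) ?_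
    intro e; rw [← e] at lβ bβ; exact hnc ⟨lβ, bβ⟩
  have fα := h1 X φ α lα bα
  have fβ := h1 X φ β lβ bβ
  set ψ : Γ →* Aut (Set.Ioo α β) :=
    (res α β).comp (φ.codRestrict (stab α β) fun γ => ⟨fα γ, fβ γ⟩) with hψ
  have hne : Nonempty (Set.Ioo α β) := ⟨⟨x, hαx, hxβ⟩⟩
  have u1 := h2 (Set.Ioo α β) ψ
  have u2 := h2 (Set.Ioo α β)ᵒᵈ (dual.comp ψ)
  push Not at u1 u2
  obtain ⟨y₁, hy₁⟩ := u1
  obtain ⟨y₂, hy₂⟩ := u2
  have v1 : b y₁.1 ≤ y₁.1 := hy₁
  have v2 : (OrderDual.ofDual y₂).1 ≤ b (OrderDual.ofDual y₂).1 := hy₂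
  set y₃ := OrderDual.ofDual y₂ with hy₃
  obtain ⟨f, f1, f2, f3⟩ : ∃ f, α < f ∧ f < β ∧ b f = f := by
    rcases eq_or_lt_of_le v1 with e | v1'
    · exact ⟨y₁.1, y₁.2.1, y₁.2.2, e⟩
    rcases eq_or_lt_of_le v2 with e | v2'
    · exact ⟨y₃.1, y₃.2.1, y₃.2.2, e.symm⟩
    rcases le_total y₁.1 y₃.1 with h | h
    · obtain ⟨f, g1, g2, g3⟩ := ivt (b : X ≃o X) h v1 v2'
      exact ⟨f, y₁.2.1.trans_le g1, g2.trans y₃.2.2, g3⟩
    · obtain ⟨f, g1, g2, g3⟩ := ivt' (b : X ≃o X) h v1 v2'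
      exact ⟨f, y₃.2.1.trans g1, g2.trans_lt y₁.2.2, g3⟩
  rcases le_total f x with h | h
  · obtain ⟨S, s1, s2, s3, s4⟩ := common hlb hz hx' f3 h
    have : S ≤ α := le_sSup ⟨s2, s3, s4⟩
    exact absurd (f1.trans_le s1) (not_lt.mpr this)
  · have hd : Aut.dual (l ^ z * b ^ t) = Aut.dual l ^ z * Aut.dual b ^ t := by
      rw [map_mul, map_zpow, map_zpow]
    have hx'' : (Aut.dual l ^ z * Aut.dual b ^ t) (OrderDual.toDual x) = OrderDual.toDual x := by
      rw [← hd]; exact hx'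
    obtain ⟨S, s1, s2, s3, s4⟩ := common (X := Xᵒᵈ) (l := Aut.dual l) (b := Aut.dual b) (t := t)
      (x := OrderDual.toDual x) (f := OrderDual.toDual f) (hlb.map Aut.dual) hz hx'' f3 h
    have s3' : l (OrderDual.ofDual S) = OrderDual.ofDual S := s3
    have s4' : b (OrderDual.ofDual S) = OrderDual.ofDual S := s4
    have s1' : OrderDual.ofDual S ≤ f := s1
    have s2' : x ≤ OrderDual.ofDual S := s2
    have : β ≤ OrderDual.ofDual S := sInf_le ⟨s2', s3', s4'⟩
    exact absurd (s1'.trans_lt f2) (not_lt.mpr this)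

/-- `M ∪ X(w)`: the fixed points of `a`, for the new basis of the boundary torus, are global. -/
theorem open_fc {M : Piece} {w : List (Bool × ℤ)} (hN : cross w ≠ 0) (h : Fc M) (x y z t : ℤ)
    (hz : z ≠ 0) : Fc (openPiece M w x y z t) := by
  obtain ⟨f₂, b1, b2, c1, c2⟩ := pcore M hole w hN h
  have e1 : pix (l := pdoubled M w hole) phn (w.length + 1) = holeIx M w := pix_of_lt _ _
  have eA : bdA M w = f₂ hole.A := by
    rw [← b1]
    change Glued.A (holeIx M w) = Glued.A (pix phn (w.length + 1))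
    rw [e1]
  have ea : bda M w = f₂ hole.a := by
    have h3 := congrArg Prod.snd b2
    change Glued.B (pix phn (w.length + 1 + 1)) = Glued.B (pix phn (w.length + 1)) *
      (f₂ hole.a)⁻¹ at h3
    rw [← nx_pix, e1] at h3
    unfold bda
    rw [h3, mul_inv_rev, inv_inv, inv_mul_cancel_right]
  refine free_of (bdA M w) (bda M w) (bda_eq M w) ?_ ?_ z t hz
  · intro X _ φ x hA ha
    rw [eA] at hA
    rw [ea] at ha
    exact pall_fixed (h.fb X) (hole_fb X) φ x (c1 X φ x hA ha)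
  · intro X _ _ φ
    rw [ea]
    exact c2 X φ

theorem Nest.fc : ∀ B : Nest, B.Ok → Fc B.piece
  | .tang T, h => T.fc h
  | .enc B _ x y z t, h => open_fc h.2.1 (Nest.fc B h.1) x y z t h.2.2.2

end Pool.Agent.K7.H38.KN
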