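import Pool.Agent.K7.H39.TB.Glued
import Pool.Agent.K7.H38.KN.Pub

set_option autoImplicit false

/-!
# Gluings of double branched covers of chains on three strands: the definitions used in the statement
-/

namespace Pool.Agent.K7.H38.KN

open Pool.Agent.Y479.LS Pool.Agent.K7.H39.TB

/-- The group of a closed chain of pieces; a letter `(true, M)` is the piece `M` between the strands 1
and 2, a letter `(false, M)` the piece `M` between the strands 2 and 3. -/
abbrev PChainGrp (l : List (Bool × Piece)) : Type :=
  Glued.Grp (fun i : Fin l.length => (l.get i).2) (fun i => (l.get i).1)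

/-- The letter of a power `σ₁ ^ n` (`(true, n)`) or `σ₂ ^ n` (`(false, n)`): a solid torus with
`A = t`, `a = t ^ n`. -/
def ppow (x : Bool × ℤ) : Bool × Piece := (x.1, (STang.rat x.2 1).piece)

/-- The closed chain `M₁ w M₂ w⁻¹`, where `M₁`, `M₂` are pieces between the strands 1 and 2 and `w` is
a braid on three strands. -/
def pdoubled (M₁ : Piece) (w : List (Bool × ℤ)) (M₂ : Piece) : List (Bool × Piece) :=
  (true, M₁) :: (w.map ppow ++ (true, M₂) :: (inv w).map ppow)

theorem plen {M₁ M₂ : Piece} {w : List (Bool × ℤ)} :
    (pdoubled M₁ w M₂).length = 2 * w.length + 2 := by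
  simp [pdoubled, inv]; ring

/-- The thickened torus. As a letter of a chain it stands for a hole. -/
def hole : Piece where
  P := Multiplicative (ℤ × ℤ)
  grp := inferInstance
  A := Multiplicative.ofAdd (1, 0)
  a := Multiplicative.ofAdd (0, 1)
  comm := mul_comm _ _

/-- The fundamental group of the manifold `M ∪ X(w)`: the closed chain `M w ∘ w⁻¹` with a hole `∘`. -/
abbrev OpenGrp (M : Piece) (w : List (Bool × ℤ)) : Type := PChainGrp (pdoubled M w hole)

/-- the index of the hole -/
def holeIx (M : Piece) (w : List (Bool × ℤ)) : Fin (pdoubled M w hole).length :=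
  ⟨w.length + 1, by rw [plen]; omega⟩

/-- The element `A` of the boundary torus of the hole: the region between the strands 2 and 3. -/
def bdA (M : Piece) (w : List (Bool × ℤ)) : OpenGrp M w := Glued.A (holeIx M w)

/-- The element `a` of the boundary torus of the hole, the product of the inverse of the region between
the strands 1 and 2 after the hole and of the region between the strands 1 and 2 before the hole. -/
def bda (M : Piece) (w : List (Bool × ℤ)) : OpenGrp M w :=
  (Glued.B (nx (holeIx M w)))⁻¹ * Glued.B (holeIx M w)

theorem get_holeIx (M : Piece) (w : List (Bool × ℤ)) :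
    (pdoubled M w hole).get (holeIx M w) = (true, hole) := by
  change (pdoubled M w hole)[w.length + 1]'(by rw [plen]; omega) = (true, hole)
  simp [pdoubled]

theorem bda_eq (M : Piece) (w : List (Bool × ℤ)) : bdA M w * bda M w = bda M w * bdA M w := by
  obtain ⟨h1, -, h3⟩ := Glued.relA (M := fun i : Fin (pdoubled M w hole).length =>
    ((pdoubled M w hole).get i).2) (κ := fun i => ((pdoubled M w hole).get i).1) (holeIx M w)
    (by rw [get_holeIx])
  unfold bdA bda
  rw [h3, h1, mul_inv_rev, inv_inv, inv_mul_cancel_right, ← map_mul, ← map_mul, Piece.comm]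

/-- The manifold `M ∪ X(w)`, with the boundary elements `A = bdA ^ x * bda ^ y` and
`a = bdA ^ z * bda ^ t`. -/
def openPiece (M : Piece) (w : List (Bool × ℤ)) (x y z t : ℤ) : Piece where
  P := OpenGrp M w
  grp := inferInstance
  A := bdA M w ^ x * bda M w ^ y
  a := bdA M w ^ z * bda M w ^ t
  comm := by
    have h : Commute (bdA M w) (bda M w) := bda_eq M w
    exact ((((Commute.refl (bdA M w)).zpow_zpow z x).mul_left (h.symm.zpow_zpow t x)).mul_right
      ((h.zpow_zpow z y).mul_left ((Commute.refl (bda M w)).zpow_zpow t y))).eq

/-- Manifolds with a torus boundary that are glued from double branched covers of tangles and from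
manifolds `X(w)`. `enc B w x y z t` is `B ∪ X(w)`, whose boundary torus is parametrised by the matrix
with the rows `x y` and `z t`. -/
inductive Nest : Type 1
  | tang (T : STang)
  | enc (B : Nest) (w : List (Bool × ℤ)) (x y z t : ℤ)

namespace Nest

def piece : Nest → Piece
  | tang T => T.piece
  | enc B w x y z t => openPiece B.piece w x y z t

/-- The tangles are not rational tangles `0 / q`, `cross w ≠ 0` for all `w`, all matrices have
determinant `1` or `-1` and satisfy `z ≠ 0`: the elements `a` of consecutive pieces are not
identified up to sign. -/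
def Ok : Nest → Prop
  | tang T => T.Proper
  | enc B w x y z t => B.Ok ∧ cross w ≠ 0 ∧ IsUnit (x * t - y * z) ∧ z ≠ 0

end Nest

end Pool.Agent.K7.H38.KN
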