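import Pool.Agent.K7.H38.KN.Order

set_option autoImplicit false

/-!
# Pairs of commuting automorphisms with related signs; positive words
-/

namespace Pool.Agent.K7.H38.KN

open Pool.Agent.Y479.LS Aut

section

variable {X : Type*} [LinearOrder X]

/-- `a` has the sign of `A` at every point, or the opposite sign at every point. -/
def SS (A a : Aut X) : Prop :=
  (∀ z, (z < A z → z < a z) ∧ (A z < z → a z < z)) ∨
    (∀ z, (z < A z → a z < z) ∧ (A z < z → z < a z))

theorem lt_inv_iff (A : Aut X) (z : X) : z < A⁻¹ z ↔ A z < z := by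
  rw [← A.lt_iff, self_inv]

theorem inv_lt_iff (A : Aut X) (z : X) : A⁻¹ z < z ↔ z < A z := by
  rw [← A.lt_iff, self_inv]

theorem SS.inv {A a : Aut X} (h : SS A a) : SS A⁻¹ a⁻¹ := by
  rcases h with h | h
  · refine Or.inl fun z => ?_
    rw [lt_inv_iff, inv_lt_iff, lt_inv_iff, inv_lt_iff]
    exact ⟨(h z).2, (h z).1⟩
  · refine Or.inr fun z => ?_
    rw [lt_inv_iff, inv_lt_iff, lt_inv_iff, inv_lt_iff]
    exact ⟨(h z).2, (h z).1⟩

theorem conj_lt_iff (k A : Aut X) (z : X) :
    (z < (k * A * k⁻¹) z ↔ k⁻¹ z < A (k⁻¹ z)) ∧ ((k * A * k⁻¹) z < z ↔ A (k⁻¹ z) < k⁻¹ z) := by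
  rw [mul_apply, mul_apply]
  constructor
  · rw [← (k⁻¹).lt_iff (x := z), inv_self]
  · rw [← (k⁻¹).lt_iff (y := z), inv_self]

theorem SS.conj {A a : Aut X} (h : SS A a) (k : Aut X) : SS (k * A * k⁻¹) (k * a * k⁻¹) := by
  rcases h with h | h
  · refine Or.inl fun z => ?_
    rw [(conj_lt_iff k A z).1, (conj_lt_iff k A z).2, (conj_lt_iff k a z).1, (conj_lt_iff k a z).2]
    exact h _
  · refine Or.inr fun z => ?_
    rw [(conj_lt_iff k A z).1, (conj_lt_iff k A z).2, (conj_lt_iff k a z).1, (conj_lt_iff k a z).2]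
    exact h _

theorem SS.dual {A a : Aut X} (h : SS A a) : SS (Aut.dual A) (Aut.dual a) := by
  rcases h with h | h
  · exact Or.inl fun z => ⟨fun h1 => (h (OrderDual.ofDual z)).2 h1,
      fun h1 => (h (OrderDual.ofDual z)).1 h1⟩
  · exact Or.inr fun z => ⟨fun h1 => (h (OrderDual.ofDual z)).2 h1,
      fun h1 => (h (OrderDual.ofDual z)).1 h1⟩

theorem lt_of_between {m : Aut X} {z₀ z : X} (h0 : z₀ < m⁻¹ z₀) (h1 : m z₀ ≤ z) (h2 : z ≤ m⁻¹ z₀) :
    m z < z := by
  by_contra hcon
  rw [not_lt] at hcon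
  have h3 : m z ≤ z₀ := by
    have := (m.le_iff).mpr h2
    rwa [self_inv] at this
  have h4 : z₀ ≤ z := by
    rw [← m.le_iff]; exact h1.trans hcon
  have h5 : z = z₀ := le_antisymm (hcon.trans h3) h4
  rw [h5] at hcon
  have h6 : m z₀ < z₀ := (lt_inv_iff m z₀).mp h0
  exact absurd hcon (not_le.mpr h6)

/-- Positive words. -/
theorem posword_up : ∀ (l : List Bool), false ∈ l → ∀ (m g v : Aut X) (z₀ : X), m * v = v * m →
    SS m v → (run l (m, g)).1 z₀ = z₀ → (run l (m, g * v)).1 z₀ = z₀ →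
    (run l (m, g)).2 z₀ = (run l (m, g * v)).2 z₀ → ¬ z₀ < (run l (m, g)).2 z₀
  | [], h, _, _, _, _, _, _, _, _, _ => absurd h List.not_mem_nil
  | true :: l, h, m, g, v, z₀, hc, hs, h1, h2, h3 => by
    have h4 : false ∈ l := by
      rcases List.mem_cons.mp h with h | h
      · exact absurd h (by decide)
      · exact h
    rw [run_true] at h1 h2 h3 ⊢
    rw [run_true] at h3
    have e : g * v * m = g * m * v := by rw [mul_assoc, ← hc, ← mul_assoc]
    rw [e] at h2 h3
    exact posword_up l h4 m (g * m) v z₀ hc hs h1 h2 h3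
  | false :: l, _, m, g, v, z₀, _, hs, h1, h2, h3 => by
    rcases hs with hs | hs
    · rw [h3]
      refine compare (m := m) (g := g * v) (h := g) (fun h0 z hz1 hz2 => ?_) h2 h3.symm
      rw [mul_apply, g.lt_iff]
      exact (hs z).2 (lt_of_between h0 hz1 hz2)
    · refine compare (m := m) (g := g) (h := g * v) (fun h0 z hz1 hz2 => ?_) h1 h3
      rw [mul_apply, g.lt_iff]
      exact (hs z).2 (lt_of_between h0 hz1 hz2)

/-- Positive words: the second component of the final state fixes `z₀`. -/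
theorem posword {l : List Bool} (hl : false ∈ l) {m g v : Aut X} {z₀ : X} (hc : m * v = v * m)
    (hs : SS m v) (h1 : (run l (m, g)).1 z₀ = z₀) (h2 : (run l (m, g * v)).1 z₀ = z₀)
    (h3 : (run l (m, g)).2 z₀ = (run l (m, g * v)).2 z₀) : (run l (m, g)).2 z₀ = z₀ := by
  rcases lt_trichotomy ((run l (m, g)).2 z₀) z₀ with h | h | h
  · exfalso
    refine posword_up l hl (Aut.dual m) (Aut.dual g) (Aut.dual v) (OrderDual.toDual z₀) ?_ hs.dual
      ?_ ?_ ?_ ?_
    · rw [← map_mul, ← map_mul, hc]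
    · rw [run_map]; exact h1
    · rw [← map_mul, run_map]; exact h2
    · rw [← map_mul, run_map, run_map]; exact h3
    · rw [run_map]; exact h
  · exact h
  · exact absurd h (posword_up l hl m g v z₀ hc hs h1 h2 h3)

/-- Positive words: the final second components differ by `u`; then `u⁻¹` does not move all points
up. -/
theorem posword_not_up [Nonempty X] {l : List Bool} (hl : false ∈ l) {m g v u : Aut X}
    (h1 : (run l (m, g * v)).1 = (run l (m, g)).1)
    (h2 : (run l (m, g * v)).2 = (run l (m, g)).2 * u) : ¬ ∀ z, z < u⁻¹ z := by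
  intro hu
  obtain ⟨-, -, h3⟩ := back l m (g * v) m g (fun z => by rw [h1]) (fun z => by
    rw [h2, mul_apply, lt_iff]
    exact (lt_inv_iff u z).mp (hu z))
  exact lt_irrefl _ (h3 hl (Classical.arbitrary X))

end

end Pool.Agent.K7.H38.KN
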